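import Pool.Agent.Helper29.E3.St1
import Pool.Agent.Helper49.PC.StN
import Pool.Agent.Helper48.BK.M_MinZ

/-! # Module MIZX: minor arcs for the model in mean square, `D ≤ M ^ 2` -/

set_option autoImplicit false

namespace Pool.Agent.Helper29.E3

open Finset ArithmeticFunction Filter
open Pool.Agent.Helper49.PC
open Pool.Agent.Helper48.BK (ex th lz Vz Pz gs nd Apx AdN Sol thd)
open scoped ComplexConjugate

private theorem sumAP_MIZX (y Q r₀ : ℕ) (hQ : 1 ≤ Q) (hr : 1 ≤ r₀) (hrQ : r₀ ≤ Q) (f : ℕ → ℂ) :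
    ∑ n ∈ (Ioc 0 y).filter (fun n => n ≡ r₀ [MOD Q]), f n =
      ∑ s ∈ Ioc 0 (0 + (y + Q - r₀) / Q), f (Q * s + r₀ - Q) := by
  have key : ∀ n, n ∈ (Ioc 0 y).filter (fun n => n ≡ r₀ [MOD Q]) →
      Q * ((n + Q - r₀) / Q) = n + Q - r₀ := by
    intro n hn
    rw [mem_filter, mem_Ioc] at hn
    obtain ⟨⟨h1, h2⟩, h3⟩ := hn
    have h4 : r₀ ≡ n + Q [MOD Q] := by
      refine h3.symm.trans ?_
      simp [Nat.ModEq]
    have h5 : Q ∣ n + Q - r₀ := (Nat.modEq_iff_dvd' (by omega)).1 h4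
    exact Nat.mul_div_cancel' h5
  symm
  apply Finset.sum_nbij' (fun s => Q * s + r₀ - Q) (fun n => (n + Q - r₀) / Q)
  · intro s hs
    rw [Nat.zero_add, mem_Ioc] at hs
    obtain ⟨h1, h2⟩ := hs
    have h3 : s * Q ≤ y + Q - r₀ := (Nat.le_div_iff_mul_le hQ).1 h2
    have h4 : Q ≤ Q * s := Nat.le_mul_of_pos_right Q h1
    rw [mem_filter, mem_Ioc]
    rw [mul_comm] at h3
    refine ⟨⟨by omega, by omega⟩, ?_⟩
    obtain ⟨t, rfl⟩ : ∃ t, s = t + 1 := ⟨s - 1, by omega⟩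
    have h5 : Q * (t + 1) + r₀ - Q = Q * t + r₀ := by
      rw [Nat.mul_succ]; omega
    show Q * (t + 1) + r₀ - Q ≡ r₀ [MOD Q]
    rw [h5]
    simp [Nat.ModEq]
  · intro n hn
    have h5 := key n hn
    rw [mem_filter, mem_Ioc] at hn
    obtain ⟨⟨h1, h2⟩, h3⟩ := hn
    rw [Nat.zero_add, mem_Ioc]
    constructor
    · rw [Nat.div_pos_iff]
      refine ⟨by omega, ?_⟩
      by_contra hcon
      push Not at hcon
      have h6 : (n + Q - r₀) / Q = 0 := Nat.div_eq_of_lt hcon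
      rw [h6] at h5
      omega
    · apply Nat.div_le_div_right
      omega
  · intro s hs
    rw [Nat.zero_add, mem_Ioc] at hs
    have h4 : Q ≤ Q * s := Nat.le_mul_of_pos_right Q hs.1
    show (Q * s + r₀ - Q + Q - r₀) / Q = s
    have h5 : Q * s + r₀ - Q + Q - r₀ = Q * s := by omega
    rw [h5]
    exact Nat.mul_div_cancel_left s hQ
  · intro n hn
    have h5 := key n hn
    show Q * ((n + Q - r₀) / Q) + r₀ - Q = n
    rw [h5]
    rw [mem_filter, mem_Ioc] at hn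
    omega
  · intro s _
    rfl

/-- multiples of `m` in a class modulo `D` form one class modulo `m D` -/
private theorem crt_MIZX (D m l : ℕ) (hD : 1 ≤ D) (hm : 1 ≤ m) (hmD : Nat.Coprime m D) :
    ∃ r₀ : ℕ, 1 ≤ r₀ ∧ r₀ ≤ m * D ∧
      ∀ n : ℕ, (n ≡ l [MOD D] ∧ m ∣ n) ↔ n ≡ r₀ [MOD (m * D)] := by
  obtain ⟨k, hk1, hk2⟩ := Nat.chineseRemainder hmD 0 l
  have hQ : 1 ≤ m * D := Nat.mul_pos hm hD
  refine ⟨(k + m * D - 1) % (m * D) + 1, by omega, ?_, ?_⟩
  · have := Nat.mod_lt (k + m * D - 1) (show 0 < m * D by omega)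
    omega
  · intro n
    have h1 : (k + m * D - 1) % (m * D) + 1 ≡ k [MOD (m * D)] := by
      have h2 : (k + m * D - 1) % (m * D) + 1 ≡ (k + m * D - 1) + 1 [MOD (m * D)] :=
        (Nat.mod_modEq _ _).add_right 1
      have h3 : k + m * D - 1 + 1 = k + m * D := by omega
      rw [h3] at h2
      refine h2.trans ?_
      simp [Nat.ModEq]
    constructor
    · rintro ⟨h2, h3⟩
      refine Nat.ModEq.trans ?_ h1.symm
      rw [← Nat.modEq_and_modEq_iff_modEq_mul hmD]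
      refine ⟨?_, h2.trans hk2.symm⟩
      exact ((Nat.modEq_zero_iff_dvd).2 h3).trans hk1.symm
    · intro h2
      have h3 := h2.trans h1
      rw [← Nat.modEq_and_modEq_iff_modEq_mul hmD] at h3
      refine ⟨h3.2.trans hk2, ?_⟩
      exact (Nat.modEq_zero_iff_dvd).1 (h3.1.trans hk1)

private theorem cls_MIZX (hG : Pool.Agent.Helper48.BK.StGeo1) (M D m l y : ℕ) (θ : ℝ)
    (hD : 1 ≤ D) (hm : 1 ≤ m) (hmM : m ≤ M) (hmD : Nat.Coprime m D) (hy : y ≤ D * M) :
    ‖∑ n ∈ (Ioc 0 y).filter (fun n => n ≡ l [MOD D] ∧ m ∣ n), ex (n * (θ / D))‖ ≤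
      gs (((2 * M : ℕ) : ℝ) / m) (m * θ) ∧
    (((Ioc 0 y).filter (fun n => n ≡ l [MOD D] ∧ m ∣ n)).card : ℝ) ≤ ((2 * M : ℕ) : ℝ) / m := by
  obtain ⟨r₀, hr1, hr2, hr3⟩ := crt_MIZX D m l hD hm hmD
  obtain ⟨g1, g2, g3, _⟩ := hG
  have hQ : 1 ≤ m * D := Nat.mul_pos hm hD
  have hset : (Ioc 0 y).filter (fun n => n ≡ l [MOD D] ∧ m ∣ n) =
      (Ioc 0 y).filter (fun n => n ≡ r₀ [MOD (m * D)]) := by
    ext n
    simp only [mem_filter, hr3]
  have hDr : (0 : ℝ) < D := by exact_mod_cast hD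
  have hmr : (0 : ℝ) < m := by exact_mod_cast hm
  -- number of terms
  have hS : (((y + m * D - r₀) / (m * D) : ℕ) : ℝ) ≤ ((2 * M : ℕ) : ℝ) / m := by
    refine (Nat.cast_div_le).trans ?_
    have h1 : ((y + m * D - r₀ : ℕ) : ℝ) ≤ y + m * D := by
      have : ((y + m * D - r₀ : ℕ) : ℝ) ≤ ((y + m * D : ℕ) : ℝ) := by
        exact_mod_cast Nat.sub_le _ _
      push_cast at this
      exact this
    have h2 : (y : ℝ) ≤ D * M := by exact_mod_cast hy
    have h3 : (m : ℝ) ≤ M := by exact_mod_cast hmM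
    push_cast
    rw [div_le_div_iff₀ (by positivity) hmr]
    have h4 : (m : ℝ) * D ≤ M * D := mul_le_mul_of_nonneg_right h3 hDr.le
    calc ((y + m * D - r₀ : ℕ) : ℝ) * m ≤ (2 * M * D) * m := by
          apply mul_le_mul_of_nonneg_right _ hmr.le
          linarith
      _ = 2 * M * (m * D) := by ring
  rw [hset]
  constructor
  · rw [sumAP_MIZX y (m * D) r₀ hQ hr1 hr2]
    have h1 : ∀ s ∈ Ioc 0 (0 + (y + m * D - r₀) / (m * D)),
        ex (((m * D * s + r₀ - m * D : ℕ) : ℝ) * (θ / D)) =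
          ex (((r₀ : ℝ) - m * D) * (θ / D)) * ex (s * (m * θ)) := by
      intro s hs
      rw [mem_Ioc] at hs
      have h4 : m * D ≤ m * D * s := Nat.le_mul_of_pos_right _ hs.1
      rw [← ex_add]
      congr 1
      rw [Nat.cast_sub (by omega)]
      push_cast
      field_simp
      ring
    rw [Finset.sum_congr rfl h1, ← Finset.mul_sum, norm_mul, norm_ex, one_mul]
    exact (g1 0 _ _).trans (g2 _ _ _ (Nat.cast_nonneg _) hS)
  · refine le_trans (le_of_eq ?_) hS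
    have h1 := sumAP_MIZX y (m * D) r₀ hQ hr1 hr2 (fun _ => (1 : ℂ))
    rw [Finset.sum_const, Finset.sum_const, nsmul_eq_mul, nsmul_eq_mul, mul_one, mul_one,
      Nat.card_Ioc] at h1
    have h2 : ((Ioc 0 y).filter (fun n => n ≡ r₀ [MOD (m * D)])).card =
        0 + (y + m * D - r₀) / (m * D) - 0 := by exact_mod_cast h1
    rw [h2]
    simp

open Classical in
/-- the combinatorial part -/
private theorem main_MIZX (ha : Pool.Agent.Helper48.BK.StBrun) (hb : Pool.Agent.Helper48.BK.StTail)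
    (he : Pool.Agent.Helper48.BK.StGeo1) (C : ℝ)
    (hd : ∀ (x J q : ℕ) (h : ℤ) (α : ℝ), 3 ≤ x → q ≤ x → Apx α h q → 1 ≤ J → J ≤ x →
      ∑ j ∈ Icc 1 J, gs ((x : ℝ) / j) (j * α) ≤ C * ((x : ℝ) / q + J + q) * Real.log x ^ 2)
    (hC : 0 < C) (M D l y z v r : ℕ) (h : ℤ) (θ : ℝ) (hM : 3 ≤ M) (hD : 1 ≤ D)
    (hl : Nat.Coprime l D) (hy : y ≤ D * M) (hz : 2 ≤ z)
    (hv : v ≤ M) (hα : Apx θ h v) (hr : z ^ (r + 1) ≤ Nat.sqrt M) :
    ‖∑ n ∈ (Ioc 0 y).filter (fun n => n ≡ l [MOD D]),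
        ((if ∀ p ∈ Pz z, ¬ p ∣ n then (1 : ℝ) else 0 : ℝ) : ℂ) * ex (n * (θ / D))‖ ≤
      C * (((2 * M : ℕ) : ℝ) / v + √M + v) * Real.log (2 * M : ℕ) ^ 2 +
        ((2 * M : ℕ) : ℝ) * ((1 + Real.log z) ^ (r + 1) / (r + 1).factorial) := by
  have hG := he
  obtain ⟨g1, g2, g3, _⟩ := he
  set P : Finset ℕ := (Pz z).filter (fun p => ¬ p ∣ D) with hP
  have hPz : P ⊆ Pz z := filter_subset _ _
  have hcop : ∀ T, T ⊆ P → Nat.Coprime (∏ p ∈ T, p) D := by
    intro T hT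
    apply Nat.Coprime.prod_left
    intro p hp
    have h1 := mem_filter.1 (hT hp)
    have h2 : p.Prime := (mem_filter.1 h1.1).2
    exact (Nat.Prime.coprime_iff_not_dvd h2).2 h1.2
  -- replace `Pz z` by `P`
  have hrep : ∀ n ∈ (Ioc 0 y).filter (fun n => n ≡ l [MOD D]),
      ((if ∀ p ∈ Pz z, ¬ p ∣ n then (1 : ℝ) else 0 : ℝ) : ℂ) * ex (n * (θ / D)) =
      ((if ∀ p ∈ P, ¬ p ∣ n then (1 : ℝ) else 0 : ℝ) : ℂ) * ex (n * (θ / D)) := by
    intro n hn
    have hn2 : n ≡ l [MOD D] := (mem_filter.1 hn).2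
    have hnD : Nat.Coprime n D := by
      have h1 : Nat.gcd n D = Nat.gcd l D := by
        rw [Nat.gcd_comm n D, Nat.gcd_comm l D, Nat.gcd_rec D n, Nat.gcd_rec D l]
        rw [hn2]
      unfold Nat.Coprime
      rw [h1]
      exact hl
    have hiff : (∀ p ∈ Pz z, ¬ p ∣ n) ↔ ∀ p ∈ P, ¬ p ∣ n := by
      constructor
      · intro h1 p hp
        exact h1 p (hPz hp)
      · intro h1 p hp hpn
        have hpp : p.Prime := (mem_filter.1 hp).2
        by_cases hpD : p ∣ D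
        · have h2 := Nat.dvd_gcd hpn hpD
          rw [hnD] at h2
          exact hpp.one_lt.ne' (Nat.dvd_one.1 h2)
        · exact h1 p (mem_filter.2 ⟨hp, hpD⟩) hpn
    rw [if_congr hiff rfl rfl]
  rw [Finset.sum_congr rfl hrep]
  set F : Finset ℕ := (Ioc 0 y).filter (fun n => n ≡ l [MOD D]) with hF
  set I : ℕ → ℝ := fun n => if ∀ p ∈ P, ¬ p ∣ n then (1 : ℝ) else 0 with hI
  set S : ℕ → ℝ := fun n => ∑ T ∈ P.powerset.filter
    (fun T => T.card ≤ r ∧ ∀ p ∈ T, p ∣ n), (-1 : ℝ) ^ T.card with hS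
  have hIS : ∀ n, |I n - S n| ≤
      ((P.powerset.filter (fun T => T.card = r + 1 ∧ ∀ p ∈ T, p ∣ n)).card : ℝ) :=
    fun n => ha P r n
  have hsplit : ∑ n ∈ F, ((I n : ℝ) : ℂ) * ex (n * (θ / D)) =
      ∑ n ∈ F, ((S n : ℝ) : ℂ) * ex (n * (θ / D)) +
      ∑ n ∈ F, ((I n - S n : ℝ) : ℂ) * ex (n * (θ / D)) := by
    rw [← Finset.sum_add_distrib]
    refine Finset.sum_congr rfl fun n _ => ?_
    push_cast; ring
  have hsqM : Nat.sqrt M ≤ M := Nat.sqrt_le_self M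
  have hMr : (3 : ℝ) ≤ M := by exact_mod_cast hM
  have hprodM : ∀ T, T ⊆ P → T.card ≤ r + 1 → ∏ p ∈ T, p ≤ Nat.sqrt M := by
    intro T hT hTc
    refine (Pool.Agent.Helper48.BK.prod_le_MinZ (hT.trans hPz)).trans (le_trans ?_ hr)
    exact Nat.pow_le_pow_right (by omega) hTc
  rw [hsplit]
  refine (norm_add_le _ _).trans (add_le_add ?_ ?_)
  · -- main part
    have e1 : ∑ n ∈ F, ((S n : ℝ) : ℂ) * ex (n * (θ / D)) =
        ∑ T ∈ P.powerset.filter (fun T => T.card ≤ r), ((-1 : ℝ) ^ T.card : ℝ) *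
          ∑ n ∈ (Ioc 0 y).filter (fun n => n ≡ l [MOD D] ∧ (∏ p ∈ T, p) ∣ n),
            ex (n * (θ / D)) := by
      have h1 : ∀ n ∈ F, ((S n : ℝ) : ℂ) * ex (n * (θ / D)) =
          ∑ T ∈ P.powerset.filter (fun T => T.card ≤ r),
            if (∏ p ∈ T, p) ∣ n then (((-1 : ℝ) ^ T.card : ℝ) : ℂ) * ex (n * (θ / D)) else 0 := by
        intro n _
        rw [← Finset.sum_filter, Finset.filter_filter]
        simp only [hS]
        rw [Complex.ofReal_sum, Finset.sum_mul]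
        refine Finset.sum_congr ?_ fun _ _ => rfl
        ext T
        simp only [mem_filter, mem_powerset]
        constructor
        · rintro ⟨h2, h3, h4⟩
          exact ⟨h2, h3, (Pool.Agent.Helper48.BK.dvd_MinZ (h2.trans hPz) n).1 h4⟩
        · rintro ⟨h2, h3, h4⟩
          exact ⟨h2, h3, (Pool.Agent.Helper48.BK.dvd_MinZ (h2.trans hPz) n).2 h4⟩
      rw [Finset.sum_congr rfl h1, Finset.sum_comm]
      refine Finset.sum_congr rfl fun T _ => ?_
      rw [Finset.mul_sum, ← Finset.filter_filter]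
      exact (Finset.sum_filter _ _).symm
    rw [e1]
    have hJ1 : 1 ≤ Nat.sqrt M := by
      rw [Nat.le_sqrt]; omega
    have hJr : ((Nat.sqrt M : ℕ) : ℝ) ≤ √M := Real.nat_sqrt_le_real_sqrt
    have h2 := hd (2 * M) (Nat.sqrt M) v h θ (by omega) (by omega) hα hJ1 (by omega)
    have hL : 0 ≤ Real.log (2 * M : ℕ) := Real.log_natCast_nonneg _
    calc ‖∑ T ∈ P.powerset.filter (fun T => T.card ≤ r), (((-1 : ℝ) ^ T.card : ℝ) : ℂ) *
          ∑ n ∈ (Ioc 0 y).filter (fun n => n ≡ l [MOD D] ∧ (∏ p ∈ T, p) ∣ n),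
            ex (n * (θ / D))‖
        ≤ ∑ T ∈ P.powerset.filter (fun T => T.card ≤ r),
            gs (((2 * M : ℕ) : ℝ) / ((∏ p ∈ T, p : ℕ) : ℝ)) (((∏ p ∈ T, p : ℕ) : ℝ) * θ) := by
          refine (norm_sum_le _ _).trans (Finset.sum_le_sum fun T hT => ?_)
          have hT' : T ⊆ P := mem_powerset.1 (mem_filter.1 hT).1
          have hTc : T.card ≤ r := (mem_filter.1 hT).2
          have hDD := Pool.Agent.Helper48.BK.prod_pos_MinZ (hT'.trans hPz)
          rw [norm_mul, Complex.norm_real, Real.norm_eq_abs, abs_pow,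
            abs_neg, abs_one, one_pow, one_mul]
          exact (cls_MIZX hG M D _ l y θ hD hDD ((hprodM T hT' (by omega)).trans hsqM)
            (hcop T hT') hy).1
      _ = ∑ j ∈ (P.powerset.filter (fun T => T.card ≤ r)).image (fun T => ∏ p ∈ T, p),
            gs (((2 * M : ℕ) : ℝ) / (j : ℝ)) ((j : ℝ) * θ) := by
          rw [Finset.sum_image]
          intro T hT T' hT' h3
          have h4 := mem_powerset.1 (mem_filter.1 (Finset.mem_coe.1 hT)).1
          have h5 := mem_powerset.1 (mem_filter.1 (Finset.mem_coe.1 hT')).1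
          exact Pool.Agent.Helper48.BK.inj_MinZ (h4.trans hPz) (h5.trans hPz) h3
      _ ≤ ∑ j ∈ Icc 1 (Nat.sqrt M), gs (((2 * M : ℕ) : ℝ) / (j : ℝ)) ((j : ℝ) * θ) := by
          apply Finset.sum_le_sum_of_subset_of_nonneg
          · intro j hj
            obtain ⟨T, hT, rfl⟩ := mem_image.1 hj
            have h4 := mem_powerset.1 (mem_filter.1 hT).1
            have h5 := (mem_filter.1 hT).2
            exact mem_Icc.2 ⟨Pool.Agent.Helper48.BK.prod_pos_MinZ (h4.trans hPz),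
              hprodM T h4 (by omega)⟩
          · intro j _ _
            exact g3 _ _ (by positivity)
      _ ≤ C * (((2 * M : ℕ) : ℝ) / v + (Nat.sqrt M : ℕ) + v) * Real.log (2 * M : ℕ) ^ 2 := h2
      _ ≤ C * (((2 * M : ℕ) : ℝ) / v + √M + v) * Real.log (2 * M : ℕ) ^ 2 := by gcongr
  · -- the error term
    calc ‖∑ n ∈ F, ((I n - S n : ℝ) : ℂ) * ex (n * (θ / D))‖
        ≤ ∑ n ∈ F, ((P.powerset.filter
            (fun T => T.card = r + 1 ∧ ∀ p ∈ T, p ∣ n)).card : ℝ) := by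
          refine (norm_sum_le _ _).trans (Finset.sum_le_sum fun n _ => ?_)
          rw [norm_mul, norm_ex, mul_one, Complex.norm_real, Real.norm_eq_abs]
          exact hIS n
      _ = ∑ n ∈ F, ∑ T ∈ P.powerset.filter (fun T => T.card = r + 1),
            if (∏ p ∈ T, p) ∣ n then (1 : ℝ) else 0 := by
          refine Finset.sum_congr rfl fun n _ => ?_
          rw [← Finset.sum_filter, Finset.filter_filter, Finset.sum_const, nsmul_eq_mul, mul_one]
          congr 2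
          ext T
          simp only [mem_filter, mem_powerset]
          constructor
          · rintro ⟨h2, h3, h4⟩
            exact ⟨h2, h3, (Pool.Agent.Helper48.BK.dvd_MinZ (h2.trans hPz) n).1 h4⟩
          · rintro ⟨h2, h3, h4⟩
            exact ⟨h2, h3, (Pool.Agent.Helper48.BK.dvd_MinZ (h2.trans hPz) n).2 h4⟩
      _ = ∑ T ∈ P.powerset.filter (fun T => T.card = r + 1),
            (((Ioc 0 y).filter (fun n => n ≡ l [MOD D] ∧ (∏ p ∈ T, p) ∣ n)).card : ℝ) := by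
          rw [Finset.sum_comm]
          refine Finset.sum_congr rfl fun T _ => ?_
          rw [← Finset.sum_filter, Finset.sum_const, nsmul_eq_mul, mul_one, hF,
            Finset.filter_filter]
      _ ≤ ∑ T ∈ P.powerset.filter (fun T => T.card = r + 1),
            ((2 * M : ℕ) : ℝ) * ((1 : ℝ) / ((∏ p ∈ T, p : ℕ) : ℝ)) := by
          refine Finset.sum_le_sum fun T hT => ?_
          have hT' : T ⊆ P := mem_powerset.1 (mem_filter.1 hT).1
          have hTc : T.card = r + 1 := (mem_filter.1 hT).2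
          have hDD := Pool.Agent.Helper48.BK.prod_pos_MinZ (hT'.trans hPz)
          rw [mul_one_div]
          exact (cls_MIZX hG M D _ l y θ hD hDD ((hprodM T hT' (by omega)).trans hsqM)
            (hcop T hT') hy).2
      _ = ((2 * M : ℕ) : ℝ) * ∑ T ∈ P.powerset.filter (fun T => T.card = r + 1),
            (1 : ℝ) / ((∏ p ∈ T, p : ℕ) : ℝ) := by rw [Finset.mul_sum]
      _ ≤ ((2 * M : ℕ) : ℝ) * ∑ T ∈ (Pz z).powerset.filter (fun T => T.card = r + 1),
            (1 : ℝ) / ((∏ p ∈ T, p : ℕ) : ℝ) := by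
          refine mul_le_mul_of_nonneg_left ?_ (Nat.cast_nonneg _)
          apply Finset.sum_le_sum_of_subset_of_nonneg
          · intro T hT
            rw [mem_filter, mem_powerset] at hT ⊢
            exact ⟨hT.1.trans hPz, hT.2⟩
          · intro T _ _
            positivity
      _ ≤ ((2 * M : ℕ) : ℝ) * ((1 + Real.log z) ^ (r + 1) / (r + 1).factorial) := by
          refine mul_le_mul_of_nonneg_left ?_ (Nat.cast_nonneg _)
          exact hb z (r + 1) hz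

/-- choice of the cut and size of the tail -/
private theorem tail_MIZX (A B : ℕ) (c : ℝ) (hc0 : 0 < c) : ∃ x₀ : ℕ, ∀ x z : ℕ, x₀ ≤ x → 2 ≤ z →
    (z : ℝ) ≤ Real.log x ^ B → 3 ≤ x ∧ 1 ≤ Real.log x ∧ Real.log z / c ≤ Real.log x ∧
      ∃ r : ℕ, z ^ (r + 1) ≤ Nat.sqrt x ∧
        Real.log z / c * (x * ((1 + Real.log z) ^ (r + 1) / (r + 1).factorial)) ≤
          x / Real.log x ^ A := by
  set κ : ℝ := min (1 / (6 * ((A : ℝ) + 1))) c with hκ
  have hκ0 : 0 < κ := lt_min (by positivity) hc0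
  have hκ1 : κ ≤ 1 / (6 * ((A : ℝ) + 1)) := min_le_left _ _
  have hκ2 : κ ≤ c := min_le_right _ _
  have hA0 : (0 : ℝ) ≤ A := Nat.cast_nonneg A
  have hκ3 : κ * (6 * ((A : ℝ) + 1)) ≤ 1 := by
    rwa [le_div_iff₀ (by positivity)] at hκ1
  have hκ6 : 6 * κ ≤ 1 := by nlinarith
  obtain ⟨x₀, hx₀⟩ := Pool.Agent.Helper48.BK.ev_MinZ B κ hκ0
  refine ⟨x₀, ?_⟩
  intro x z hx hz hzB
  obtain ⟨hx3, hL1, hu⟩ := hx₀ x hx
  set L : ℝ := Real.log x with hL
  set s : ℝ := √(√L) with hs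
  have hxr : (3 : ℝ) ≤ x := by exact_mod_cast hx3
  have hs2 : s ^ 2 = √L := Real.sq_sqrt (Real.sqrt_nonneg _)
  have hs4 : s ^ 4 = L := by
    have : s ^ 4 = (s ^ 2) ^ 2 := by ring
    rw [this, hs2, Real.sq_sqrt (by linarith)]
  have hs1 : 1 ≤ s := by
    rw [hs, Real.one_le_sqrt, Real.one_le_sqrt]; exact hL1
  have hzr : (2 : ℝ) ≤ z := by exact_mod_cast hz
  have hlz0 : 0 < Real.log z := Real.log_pos (by linarith)
  have hlzB : Real.log z ≤ B * Real.log L := by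
    have := Real.log_le_log (by linarith) hzB
    rwa [Real.log_pow] at this
  have hlzu : 1 + Real.log z ≤ κ * s := by linarith
  have hss : s ≤ s ^ 4 := by
    calc s = s ^ 1 := (pow_one s).symm
      _ ≤ s ^ 4 := pow_le_pow_right₀ hs1 (by norm_num)
  have hlzL : 6 * Real.log z ≤ L := by
    rw [← hs4]
    nlinarith
  -- the cut
  set R : ℕ := ⌊L / (2 * Real.log z)⌋₊ with hR
  have hRle : (R : ℝ) ≤ L / (2 * Real.log z) := Nat.floor_le (by positivity)
  have hRge : L / (3 * Real.log z) ≤ R := by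
    have h1 : L / (2 * Real.log z) < R + 1 := Nat.lt_floor_add_one _
    have h2 : L / (2 * Real.log z) - 1 ≥ L / (3 * Real.log z) := by
      have h3 : L / (2 * Real.log z) - L / (3 * Real.log z) = L / (6 * Real.log z) := by
        field_simp
        ring
      have h4 : 1 ≤ L / (6 * Real.log z) := by
        rw [le_div_iff₀ (by positivity)]; linarith
      linarith
    linarith
  have hRs : s ^ 3 / (3 * κ) ≤ R := by
    refine le_trans ?_ hRge
    rw [div_le_div_iff₀ (by positivity) (by positivity), ← hs4]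
    have h1 : Real.log z ≤ κ * s := by linarith
    have h2 : 0 ≤ s ^ 3 := by positivity
    nlinarith [mul_le_mul_of_nonneg_left h1 h2]
  have hRA : 2 * (A + 1) ≤ R := by
    have h1 : (2 * ((A : ℝ) + 1)) ≤ s ^ 3 / (3 * κ) := by
      rw [le_div_iff₀ (by positivity)]
      have : 1 ≤ s ^ 3 := one_le_pow₀ hs1
      nlinarith
    have h2 := h1.trans hRs
    exact_mod_cast h2
  have hR1 : 1 ≤ R := by omega
  have hRpos : (0 : ℝ) < R := by exact_mod_cast hR1
  obtain ⟨r, hr⟩ : ∃ r, R = r + 1 := ⟨R - 1, by omega⟩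
  have hlc : Real.log z / c ≤ L := by
    rw [div_le_iff₀ hc0, ← hs4]
    have h1 : Real.log z ≤ κ * s := by linarith
    calc Real.log z ≤ κ * s := h1
      _ ≤ c * s ^ 4 := by gcongr
      _ = s ^ 4 * c := mul_comm _ _
  have hzr' : z ^ (r + 1) ≤ Nat.sqrt x := by
    rw [Nat.le_sqrt, ← hr]
    have h1 : ((z ^ R * z ^ R : ℕ) : ℝ) ≤ x := by
      have h2 : (R : ℝ) * (2 * Real.log z) ≤ L := by
        rwa [le_div_iff₀ (by positivity)] at hRle
      have h3 : ((z ^ R * z ^ R : ℕ) : ℝ) = Real.exp (2 * R * Real.log z) := by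
        rw [show (2 : ℝ) * R * Real.log z = ((2 * R : ℕ) : ℝ) * Real.log z by push_cast; ring,
          Real.exp_nat_mul, Real.exp_log (by linarith)]
        push_cast
        ring
      rw [h3]
      calc Real.exp (2 * R * Real.log z) ≤ Real.exp L := by
            apply Real.exp_le_exp.2
            linarith
        _ = x := by rw [hL, Real.exp_log (by linarith)]
    exact_mod_cast h1
  refine ⟨hx3, hL1, hlc, r, hzr', ?_⟩
  rw [← hr]
  have hfac := Pool.Agent.Helper48.BK.fact_MinZ R hR1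
  have hbase : (1 + Real.log z) * Real.exp 1 / R ≤ 1 / s ^ 2 := by
    rw [div_le_div_iff₀ hRpos (by positivity), one_mul]
    refine le_trans ?_ hRs
    rw [le_div_iff₀ (by positivity)]
    have he1 := Real.exp_one_lt_d9
    have he0 : 0 < Real.exp 1 := Real.exp_pos 1
    have h1 : (1 + Real.log z) * Real.exp 1 ≤ κ * s * 2.72 := by
      apply mul_le_mul hlzu (by linarith) he0.le (by positivity)
    have h2 : κ * s * 2.72 * s ^ 2 * (3 * κ) ≤ s ^ 3 := by
      have h3 : κ * s * 2.72 * s ^ 2 * (3 * κ) = (8.16 * (κ * κ)) * s ^ 3 := by ring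
      rw [h3]
      have h4 : 8.16 * (κ * κ) ≤ 1 := by nlinarith
      have h5 : 0 ≤ s ^ 3 := by positivity
      nlinarith
    calc (1 + Real.log z) * Real.exp 1 * s ^ 2 * (3 * κ)
        ≤ κ * s * 2.72 * s ^ 2 * (3 * κ) := by gcongr
      _ ≤ s ^ 3 := h2
  have hq1 : (1 + Real.log z) ^ R / R.factorial ≤ 1 / L ^ (A + 1) := by
    calc (1 + Real.log z) ^ R / R.factorial
        ≤ (1 + Real.log z) ^ R / ((R : ℝ) / Real.exp 1) ^ R := by gcongr
      _ = ((1 + Real.log z) * Real.exp 1 / R) ^ R := by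
          rw [← div_pow]
          congr 1
          field_simp
      _ ≤ (1 / s ^ 2) ^ R := by
          apply pow_le_pow_left₀ (by positivity) hbase
      _ ≤ (1 / s ^ 2) ^ (2 * (A + 1)) := by
          apply pow_le_pow_of_le_one (by positivity) _ hRA
          rw [div_le_one (by positivity)]
          exact one_le_pow₀ hs1
      _ = 1 / L ^ (A + 1) := by
          rw [div_pow, one_pow, ← hs4, ← pow_mul, ← pow_mul]
          congr 2
          ring
  calc Real.log z / c * (x * ((1 + Real.log z) ^ R / R.factorial))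
      ≤ L * (x * (1 / L ^ (A + 1))) := by gcongr
    _ = x / L ^ A := by
        rw [pow_succ]
        field_simp

private theorem ev_MIZX (B p : ℕ) (K : ℝ) (x₁ : ℕ) : ∃ x₀ : ℕ, ∀ M : ℕ, x₀ ≤ M →
    x₁ ≤ M ∧ K ≤ Real.log M ∧ Real.log M ^ p ≤ √M ∧ Real.log M ^ B ≤ M := by
  have h1 : Tendsto (fun x : ℕ => Real.log (x : ℝ)) atTop atTop :=
    Real.tendsto_log_atTop.comp tendsto_natCast_atTop_atTop
  have hpow : ∀ k : ℕ, ∀ᶠ M : ℕ in atTop, Real.log M ^ k ≤ M := by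
    intro k
    have h2 : ∀ᶠ x : ℝ in atTop, ‖Real.log x ^ k‖ ≤ 1 * ‖id x‖ :=
      (Real.isLittleO_pow_log_id_atTop (n := k)).bound one_pos
    have h3 := tendsto_natCast_atTop_atTop (R := ℝ) |>.eventually h2
    filter_upwards [h3] with M hM
    rw [one_mul, id, Real.norm_eq_abs, Real.norm_eq_abs,
      abs_of_nonneg (show (0 : ℝ) ≤ (M : ℝ) from Nat.cast_nonneg M)] at hM
    exact (le_abs_self _).trans hM
  have h4 := (eventually_ge_atTop x₁).and ((h1.eventually_ge_atTop K).and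
    ((hpow (2 * p)).and (hpow B)))
  obtain ⟨x₀, hx₀⟩ := eventually_atTop.1 h4
  refine ⟨x₀, fun M hM => ?_⟩
  obtain ⟨h5, h6, h7, h8⟩ := hx₀ M hM
  refine ⟨h5, h6, ?_, h8⟩
  apply Real.le_sqrt_of_sq_le
  rw [← pow_mul, mul_comm p 2]
  exact h7

private theorem cutsum_MIZX (f : ℕ → ℝ) (X D l w₀ w₁ : ℕ) (θ R : ℝ) (hR : 0 ≤ R) (hw : w₁ ≤ X)
    (h : ∀ y ≤ X, ‖∑ n ∈ (Ioc 0 y).filter (fun n => n ≡ l [MOD D]),
      ((f n : ℝ) : ℂ) * ex (n * (θ / D))‖ ≤ R) :
    ‖∑ n ∈ (Ioc 0 X).filter (fun n => n ≡ l [MOD D]),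
      ((cut f w₀ w₁ n : ℝ) : ℂ) * ex (n * (θ / D))‖ ≤ 2 * R := by
  by_cases hww : w₀ ≤ w₁
  · have h1 : ∑ n ∈ (Ioc 0 X).filter (fun n => n ≡ l [MOD D]),
        ((cut f w₀ w₁ n : ℝ) : ℂ) * ex (n * (θ / D)) =
        ∑ n ∈ ((Ioc 0 X).filter (fun n => n ≡ l [MOD D])).filter
          (fun n => w₀ < n ∧ n ≤ w₁), ((f n : ℝ) : ℂ) * ex (n * (θ / D)) := by
      rw [Finset.sum_filter (fun n => w₀ < n ∧ n ≤ w₁)]
      refine Finset.sum_congr rfl fun n _ => ?_
      unfold cut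
      split_ifs
      · rfl
      · simp
    have h2 : ∑ n ∈ (Ioc 0 w₁).filter (fun n => n ≡ l [MOD D]),
        ((f n : ℝ) : ℂ) * ex (n * (θ / D)) =
        ∑ n ∈ (Ioc 0 w₀).filter (fun n => n ≡ l [MOD D]),
        ((f n : ℝ) : ℂ) * ex (n * (θ / D)) +
        ∑ n ∈ ((Ioc 0 X).filter (fun n => n ≡ l [MOD D])).filter
          (fun n => w₀ < n ∧ n ≤ w₁), ((f n : ℝ) : ℂ) * ex (n * (θ / D)) := by
      rw [← Finset.sum_union]
      · refine Finset.sum_congr ?_ fun _ _ => rfl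
        ext n
        simp only [mem_filter, mem_union, mem_Ioc]
        constructor
        · rintro ⟨⟨h3, h4⟩, h5⟩
          by_cases h6 : n ≤ w₀
          · left; exact ⟨⟨h3, h6⟩, h5⟩
          · right; exact ⟨⟨⟨h3, by omega⟩, h5⟩, by omega, h4⟩
        · rintro (⟨⟨h3, h4⟩, h5⟩ | ⟨⟨⟨h3, h4⟩, h5⟩, h6, h7⟩)
          · exact ⟨⟨h3, by omega⟩, h5⟩
          · exact ⟨⟨h3, h7⟩, h5⟩
      · rw [Finset.disjoint_left]
        intro n h3 h4
        simp only [mem_filter, mem_Ioc] at h3 h4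
        omega
    rw [h1]
    have h3 := h w₁ hw
    have h4 := h w₀ (hww.trans hw)
    rw [h2] at h3
    have h5 := norm_sub_le (∑ n ∈ (Ioc 0 w₀).filter (fun n => n ≡ l [MOD D]),
        ((f n : ℝ) : ℂ) * ex (n * (θ / D)) +
        ∑ n ∈ ((Ioc 0 X).filter (fun n => n ≡ l [MOD D])).filter
          (fun n => w₀ < n ∧ n ≤ w₁), ((f n : ℝ) : ℂ) * ex (n * (θ / D)))
        (∑ n ∈ (Ioc 0 w₀).filter (fun n => n ≡ l [MOD D]),
        ((f n : ℝ) : ℂ) * ex (n * (θ / D)))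
    rw [add_sub_cancel_left] at h5
    linarith
  · have h1 : ∑ n ∈ (Ioc 0 X).filter (fun n => n ≡ l [MOD D]),
        ((cut f w₀ w₁ n : ℝ) : ℂ) * ex (n * (θ / D)) = 0 := by
      apply Finset.sum_eq_zero
      intro n _
      unfold cut
      rw [if_neg (by omega)]
      simp
    rw [h1, norm_zero]
    linarith

/-- bound for one unit class -/
private theorem unit_MIZX (ha : Pool.Agent.Helper48.BK.StBrun) (hb : Pool.Agent.Helper48.BK.StTail)
    (he : Pool.Agent.Helper48.BK.StGeo1) (C c : ℝ) (hC : 0 < C) (hc : 0 < c)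
    (hd : ∀ (x J q : ℕ) (h : ℤ) (α : ℝ), 3 ≤ x → q ≤ x → Apx α h q → 1 ≤ J → J ≤ x →
      ∑ j ∈ Icc 1 J, gs ((x : ℝ) / j) (j * α) ≤ C * ((x : ℝ) / q + J + q) * Real.log x ^ 2)
    (E M D l y z v r : ℕ) (h : ℤ) (θ : ℝ) (hM : 3 ≤ M) (hD : 1 ≤ D)
    (hl : Nat.Coprime l D) (hy : y ≤ D * M) (hz : 2 ≤ z)
    (hv : v ≤ M) (hα : Apx θ h v) (hr : z ^ (r + 1) ≤ Nat.sqrt M)
    (hVz : c / Real.log z ≤ Vz z) (hL1 : 1 ≤ Real.log M) (hlc : Real.log z / c ≤ Real.log M)
    (htail : Real.log z / c * (M * ((1 + Real.log z) ^ (r + 1) / (r + 1).factorial)) ≤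
      M / Real.log M ^ (E + 1))
    (hv1 : Real.log M ^ (E + 4) ≤ v) (hv2 : v * Real.log M ^ (E + 4) ≤ M)
    (hsq : Real.log M ^ (E + 4) ≤ √M) :
    ‖∑ n ∈ (Ioc 0 y).filter (fun n => n ≡ l [MOD D]),
        ((lz z n : ℝ) : ℂ) * ex (n * (θ / D))‖ ≤ (16 * C + 2) * (M / Real.log M ^ (E + 1)) := by
  have hmain := main_MIZX ha hb he C hd hC M D l y z v r h θ hM hD hl hy hz hv hα hr
  set L : ℝ := Real.log M with hL
  have hMr : (3 : ℝ) ≤ M := by exact_mod_cast hM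
  have hzr : (2 : ℝ) ≤ z := by exact_mod_cast hz
  have hlz0 : 0 < Real.log z := Real.log_pos (by linarith)
  have hL0 : 0 < L := by linarith
  have hVpos : 0 < Vz z := lt_of_lt_of_le (by positivity) hVz
  have hVinv : 1 / Vz z ≤ Real.log z / c := by
    rw [div_le_div_iff₀ hVpos hc, one_mul]
    rwa [div_le_iff₀ hlz0, mul_comm] at hVz
  have e1 : ∑ n ∈ (Ioc 0 y).filter (fun n => n ≡ l [MOD D]),
      ((lz z n : ℝ) : ℂ) * ex (n * (θ / D)) = ((1 / Vz z : ℝ) : ℂ) *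
      ∑ n ∈ (Ioc 0 y).filter (fun n => n ≡ l [MOD D]),
      ((if ∀ p ∈ Pz z, ¬ p ∣ n then (1 : ℝ) else 0 : ℝ) : ℂ) * ex (n * (θ / D)) := by
    rw [Finset.mul_sum]
    refine Finset.sum_congr rfl fun n _ => ?_
    unfold lz
    split_ifs
    · push_cast; ring
    · simp
  rw [e1, norm_mul, Complex.norm_real, Real.norm_of_nonneg (by positivity)]
  have hv0 : (0 : ℝ) < v := lt_of_lt_of_le (by positivity) hv1
  have hM0 : (0 : ℝ) < M := by linarith
  have hLp : 0 < L ^ (E + 4) := by positivity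
  have a1 : ((2 * M : ℕ) : ℝ) / v ≤ 2 * (M / L ^ (E + 4)) := by
    push_cast
    rw [mul_div_assoc]
    gcongr
  have a2 : √(M : ℝ) ≤ M / L ^ (E + 4) := by
    rw [le_div_iff₀ hLp]
    calc √(M : ℝ) * L ^ (E + 4) ≤ √(M : ℝ) * √(M : ℝ) := by gcongr
      _ = M := Real.mul_self_sqrt hM0.le
  have a3 : (v : ℝ) ≤ M / L ^ (E + 4) := by
    rw [le_div_iff₀ hLp]; exact hv2
  have a4 : Real.log (2 * M : ℕ) ≤ 2 * L := by
    push_cast
    rw [Real.log_mul (by norm_num) (by linarith)]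
    have : Real.log 2 ≤ Real.log M := Real.log_le_log (by norm_num) (by linarith)
    linarith
  have a5 : 0 ≤ Real.log (2 * M : ℕ) := Real.log_natCast_nonneg _
  have hcnn : 0 ≤ Real.log z / c := by positivity
  have b1 : Real.log z / c * (C * (((2 * M : ℕ) : ℝ) / v + √M + v) *
      Real.log (2 * M : ℕ) ^ 2) ≤ 16 * C * (M / L ^ (E + 1)) := by
    have h1 : C * (((2 * M : ℕ) : ℝ) / v + √M + v) * Real.log (2 * M : ℕ) ^ 2 ≤
        C * (4 * (M / L ^ (E + 4))) * (2 * L) ^ 2 := by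
      apply mul_le_mul _ (pow_le_pow_left₀ a5 a4 2) (by positivity) (by positivity)
      apply mul_le_mul_of_nonneg_left _ hC.le
      linarith
    calc Real.log z / c * (C * (((2 * M : ℕ) : ℝ) / v + √M + v) * Real.log (2 * M : ℕ) ^ 2)
        ≤ L * (C * (4 * (M / L ^ (E + 4))) * (2 * L) ^ 2) := by
          apply mul_le_mul hlc h1 (by positivity) hL0.le
      _ = 16 * C * (M / L ^ (E + 1)) := by
          have : L ^ (E + 4) = L ^ (E + 1) * L ^ 3 := by rw [← pow_add]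
          rw [this]
          field_simp
          ring
  have b2 : Real.log z / c * (((2 * M : ℕ) : ℝ) *
      ((1 + Real.log z) ^ (r + 1) / (r + 1).factorial)) ≤ 2 * (M / L ^ (E + 1)) := by
    calc Real.log z / c * (((2 * M : ℕ) : ℝ) *
        ((1 + Real.log z) ^ (r + 1) / (r + 1).factorial))
        = 2 * (Real.log z / c * (M * ((1 + Real.log z) ^ (r + 1) / (r + 1).factorial))) := by
          push_cast; ring
      _ ≤ 2 * (M / L ^ (E + 1)) := by linarith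
  calc 1 / Vz z * ‖∑ n ∈ (Ioc 0 y).filter (fun n => n ≡ l [MOD D]),
      ((if ∀ p ∈ Pz z, ¬ p ∣ n then (1 : ℝ) else 0 : ℝ) : ℂ) * ex (n * (θ / D))‖
      ≤ Real.log z / c * (C * (((2 * M : ℕ) : ℝ) / v + √M + v) * Real.log (2 * M : ℕ) ^ 2 +
        ((2 * M : ℕ) : ℝ) * ((1 + Real.log z) ^ (r + 1) / (r + 1).factorial)) := by
        refine mul_le_mul hVinv ?_ (norm_nonneg _) hcnn
        convert hmain using 4
    _ = Real.log z / c * (C * (((2 * M : ℕ) : ℝ) / v + √M + v) * Real.log (2 * M : ℕ) ^ 2) +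
        Real.log z / c * (((2 * M : ℕ) : ℝ) *
          ((1 + Real.log z) ^ (r + 1) / (r + 1).factorial)) := by ring
    _ ≤ 16 * C * (M / L ^ (E + 1)) + 2 * (M / L ^ (E + 1)) := add_le_add b1 b2
    _ = (16 * C + 2) * (M / L ^ (E + 1)) := by ring

theorem hMIZX (h1 : StPV) (h2 : StTRV) (h3 : StNUZ) (h4 : Pool.Agent.Helper48.BK.StBrun)
    (h5 : Pool.Agent.Helper48.BK.StTail) (h6 : Pool.Agent.Helper48.BK.StVz)
    (h7 : Pool.Agent.Helper48.BK.StTI) (h8 : Pool.Agent.Helper48.BK.StGeo1) : StMIZX := by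
  intro E
  obtain ⟨c, hc0, hV⟩ := h6
  obtain ⟨C, hC0, hTI⟩ := h7
  obtain ⟨C₂, hC₂, hN⟩ := h3
  refine ⟨E + 4, ?_⟩
  intro B
  obtain ⟨x₁, hx₁⟩ := tail_MIZX (E + 1) B c hc0
  obtain ⟨x₀, hx₀⟩ := ev_MIZX B (E + 4) (9 + 64 * C + 108 * C₂) x₁
  refine ⟨x₀, ?_⟩
  intro M D v z w₀ w₁ h θ hM hD hDM hα hv1 hv2 hw hz1 hzB
  obtain ⟨hMx, hK, hsq, hLB⟩ := hx₀ M hM
  set L : ℝ := Real.log M with hL
  have hL1 : 1 ≤ L := by linarith
  have hL0 : 0 < L := by linarith
  have hLp1 : L ≤ L ^ (E + 4) := by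
    calc L = L ^ 1 := (pow_one L).symm
      _ ≤ L ^ (E + 4) := pow_le_pow_right₀ hL1 (by omega)
  have hz2 : 2 ≤ z := by
    have : (2 : ℝ) ≤ z := by linarith
    exact_mod_cast this
  obtain ⟨hM3, _, hlc, r, hr, htail⟩ := hx₁ M z hMx hz2 hzB
  have hMr : (3 : ℝ) ≤ M := by exact_mod_cast hM3
  have hM0 : (0 : ℝ) < M := by linarith
  have hDr : (1 : ℝ) ≤ D := by exact_mod_cast hD
  have hD0 : (0 : ℝ) < D := by linarith
  have hvM : v ≤ M := by
    have h9 : (v : ℝ) ≤ M := by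
      calc (v : ℝ) = v * 1 := (mul_one _).symm
        _ ≤ v * L ^ (E + 4) := by
            apply mul_le_mul_of_nonneg_left _ (Nat.cast_nonneg v)
            linarith
        _ ≤ M := hv2
    exact_mod_cast h9
  have hzM : z ≤ M := by
    have h9 : (z : ℝ) ≤ M := hzB.trans hLB
    exact_mod_cast h9
  have hXM : M ≤ D * M := Nat.le_mul_of_pos_left M hD
  have hXD : D ≤ D * M := Nat.le_mul_of_pos_right D (by omega)
  -- unit classes
  have hU : ∀ l, Nat.Coprime l D → ‖∑ n ∈ (Ioc 0 (D * M)).filter (fun n => n ≡ l [MOD D]),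
      ((cut (lz z) w₀ w₁ n : ℝ) : ℂ) * ex (n * (θ / D))‖ ≤ M / (2 * L ^ E) := by
    intro l hl
    have h9 := cutsum_MIZX (lz z) (D * M) D l w₀ w₁ θ ((16 * C + 2) * (M / L ^ (E + 1)))
      (by positivity) hw (fun y hy => unit_MIZX h4 h5 h8 C c hC0 hc0 hTI E M D l y z v r h θ hM3
        hD hl hy hz2 hvM hα hr (hV z hz2) hL1 hlc htail hv1 hv2 hsq)
    refine h9.trans ?_
    rw [pow_succ]
    rw [← mul_assoc, mul_div_assoc', div_le_div_iff₀ (by positivity) (by positivity)]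
    have h10 : 2 * (16 * C + 2) * 2 ≤ L := by linarith
    calc 2 * (16 * C + 2) * M * (2 * L ^ E) = (2 * (16 * C + 2) * 2) * (M * L ^ E) := by ring
      _ ≤ L * (M * L ^ E) := by gcongr
      _ = M * (L ^ E * L) := by ring
  -- the classes which are not units
  set F : ℕ → ℂ := fun n => ((cut (lz z) w₀ w₁ n : ℝ) : ℂ) with hF
  set G : ℕ → ℂ := fun n => if Nat.Coprime n D then 0 else F n with hG
  have hcl : ∀ n l, n ≡ l [MOD D] → (Nat.Coprime n D ↔ Nat.Coprime l D) := by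
    intro n l hn2
    have h9 : Nat.gcd n D = Nat.gcd l D := by
      rw [Nat.gcd_comm n D, Nat.gcd_comm l D, Nat.gcd_rec D n, Nat.gcd_rec D l]
      rw [hn2]
    unfold Nat.Coprime
    rw [h9]
  have hFG : ∀ l, ¬ Nat.Coprime l D →
      ∑ n ∈ (Ioc 0 (D * M)).filter (fun n => n ≡ l [MOD D]), F n * ex (n * (θ / D)) =
      ∑ n ∈ (Ioc 0 (D * M)).filter (fun n => n ≡ l [MOD D]), G n * ex (n * (θ / D)) := by
    intro l hl
    refine Finset.sum_congr rfl fun n hn => ?_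
    have h9 := hcl n l (mem_filter.1 hn).2
    have h10 : ¬ Nat.Coprime n D := fun h11 => hl (h9.1 h11)
    simp only [hG]
    rw [if_neg h10]
  have hNG : NN G (D * M) D θ ≤ ((D : ℝ) * M) ^ 2 / (2 * L ^ E) := by
    have t1 := h2 G (D * M) D θ hD
    have t2 : ∑ n ∈ Ioc 0 (D * M), ‖G n‖ ^ 2 ≤
        ∑ n ∈ (Ioc 0 (D * M)).filter (fun n => ¬ Nat.Coprime n D), lz z n ^ 2 := by
      rw [Finset.sum_filter]
      refine Finset.sum_le_sum fun n _ => ?_
      simp only [hG, hF]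
      by_cases h9 : Nat.Coprime n D
      · rw [if_pos h9, if_neg (not_not.2 h9)]
        simp
      · rw [if_neg h9, if_pos h9, Complex.norm_real, Real.norm_eq_abs, sq_abs]
        unfold cut
        split_ifs
        · exact le_rfl
        · rw [zero_pow two_ne_zero]
          positivity
    have t3 := hN (D * M) z D (by omega) hz2 (by omega) hD hXD
    have t4 : Real.log ((D * M : ℕ) : ℝ) ≤ 3 * L := by
      push_cast
      rw [Real.log_mul (by linarith) (by linarith)]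
      have hDM' : (D : ℝ) ≤ (M : ℝ) ^ 2 := by exact_mod_cast hDM
      have h12 : Real.log D ≤ Real.log ((M : ℝ) ^ 2) := Real.log_le_log (by linarith) hDM'
      rw [Real.log_pow] at h12
      push_cast at h12
      linarith
    have t5 : 0 ≤ Real.log ((D * M : ℕ) : ℝ) := Real.log_natCast_nonneg _
    have hz0 : (0 : ℝ) < z := by
      have : (2 : ℝ) ≤ z := by exact_mod_cast hz2
      linarith
    have t6 : C₂ * ((D * M : ℕ) : ℝ) * Real.log ((D * M : ℕ) : ℝ) ^ 3 / z ≤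
        C₂ * (D * M) * (3 * L) ^ 3 / L ^ (E + 4) := by
      push_cast at t4 t5 ⊢
      gcongr
    have t7 : (((D * M : ℕ) : ℝ) + D) ≤ 2 * (D * M) := by
      push_cast
      nlinarith
    calc NN G (D * M) D θ ≤ (((D * M : ℕ) : ℝ) + D) * ∑ n ∈ Ioc 0 (D * M), ‖G n‖ ^ 2 := t1
      _ ≤ (2 * (D * M)) * (C₂ * (D * M) * (3 * L) ^ 3 / L ^ (E + 4)) := by
          apply mul_le_mul t7 (t2.trans (t3.trans t6)) (Finset.sum_nonneg fun _ _ => by positivity)
          positivity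
      _ ≤ ((D : ℝ) * M) ^ 2 / (2 * L ^ E) := by
          have : L ^ (E + 4) = L ^ E * L ^ 3 * L := by ring
          rw [this, mul_div_assoc', div_le_div_iff₀ (by positivity) (by positivity)]
          have h10 : 108 * C₂ ≤ L := by linarith
          calc 2 * (D * M) * (C₂ * (D * M) * (3 * L) ^ 3) * (2 * L ^ E)
              = (108 * C₂) * (((D : ℝ) * M) ^ 2 * (L ^ E * L ^ 3)) := by ring
            _ ≤ L * (((D : ℝ) * M) ^ 2 * (L ^ E * L ^ 3)) := by gcongr
            _ = ((D : ℝ) * M) ^ 2 * (L ^ E * L ^ 3 * L) := by ring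
  have hpv := h1 F (D * M) D θ hD
  have hpvG := h1 G (D * M) D θ hD
  rw [hpv]
  rw [← Finset.sum_filter_add_sum_filter_not (range D) (fun l => Nat.Coprime l D), mul_add]
  have q1 : (D : ℝ) * ∑ l ∈ (range D).filter (fun l => Nat.Coprime l D),
      ‖∑ n ∈ (Ioc 0 (D * M)).filter (fun n => n ≡ l [MOD D]), F n * ex (n * (θ / D))‖ ^ 2 ≤
      D * (D * (M / (2 * L ^ E)) ^ 2) := by
    apply mul_le_mul_of_nonneg_left _ hD0.le
    calc ∑ l ∈ (range D).filter (fun l => Nat.Coprime l D),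
        ‖∑ n ∈ (Ioc 0 (D * M)).filter (fun n => n ≡ l [MOD D]), F n * ex (n * (θ / D))‖ ^ 2
        ≤ ∑ l ∈ (range D).filter (fun l => Nat.Coprime l D), (M / (2 * L ^ E)) ^ 2 := by
          refine Finset.sum_le_sum fun l hl => ?_
          exact pow_le_pow_left₀ (norm_nonneg _) (hU l (mem_filter.1 hl).2) 2
      _ = (((range D).filter (fun l => Nat.Coprime l D)).card : ℝ) * (M / (2 * L ^ E)) ^ 2 := by
          rw [Finset.sum_const, nsmul_eq_mul]
      _ ≤ D * (M / (2 * L ^ E)) ^ 2 := by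
          apply mul_le_mul_of_nonneg_right _ (by positivity)
          have h9 := Finset.card_filter_le (range D) (fun l => Nat.Coprime l D)
          rw [card_range] at h9
          exact_mod_cast h9
  have q2 : (D : ℝ) * ∑ l ∈ (range D).filter (fun l => ¬ Nat.Coprime l D),
      ‖∑ n ∈ (Ioc 0 (D * M)).filter (fun n => n ≡ l [MOD D]), F n * ex (n * (θ / D))‖ ^ 2 ≤
      NN G (D * M) D θ := by
    rw [hpvG]
    apply mul_le_mul_of_nonneg_left _ hD0.le
    calc ∑ l ∈ (range D).filter (fun l => ¬ Nat.Coprime l D),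
        ‖∑ n ∈ (Ioc 0 (D * M)).filter (fun n => n ≡ l [MOD D]), F n * ex (n * (θ / D))‖ ^ 2
        = ∑ l ∈ (range D).filter (fun l => ¬ Nat.Coprime l D),
        ‖∑ n ∈ (Ioc 0 (D * M)).filter (fun n => n ≡ l [MOD D]),
          G n * ex (n * (θ / D))‖ ^ 2 := by
          refine Finset.sum_congr rfl fun l hl => ?_
          rw [hFG l (mem_filter.1 hl).2]
      _ ≤ _ := by
          apply Finset.sum_le_sum_of_subset_of_nonneg (filter_subset _ _)
          intro l _ _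
          positivity
  have q3 : (D : ℝ) * (D * (M / (2 * L ^ E)) ^ 2) ≤ ((D : ℝ) * M) ^ 2 / (4 * L ^ E) := by
    have h9 : 1 ≤ L ^ E := one_le_pow₀ hL1
    rw [div_pow, mul_div_assoc', mul_div_assoc', div_le_div_iff₀ (by positivity) (by positivity)]
    calc (D : ℝ) * (D * M ^ 2) * (4 * L ^ E) = ((D : ℝ) * M) ^ 2 * (4 * (L ^ E * 1)) := by ring
      _ ≤ ((D : ℝ) * M) ^ 2 * (4 * (L ^ E * L ^ E)) := by gcongr
      _ = ((D : ℝ) * M) ^ 2 * (2 * L ^ E) ^ 2 := by ring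
  have q4 : ((D : ℝ) * M) ^ 2 / (4 * L ^ E) + ((D : ℝ) * M) ^ 2 / (2 * L ^ E) ≤
      ((D : ℝ) * M) ^ 2 / L ^ E := by
    have h9 : 0 ≤ ((D : ℝ) * M) ^ 2 / L ^ E := by positivity
    have h10 : ((D : ℝ) * M) ^ 2 / (4 * L ^ E) = (((D : ℝ) * M) ^ 2 / L ^ E) / 4 := by
      field_simp
    have h11 : ((D : ℝ) * M) ^ 2 / (2 * L ^ E) = (((D : ℝ) * M) ^ 2 / L ^ E) / 2 := by
      field_simp
    rw [h10, h11]
    linarith
  linarith

end Pool.Agent.Helper29.E3
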