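import Pool.Agent.Helper29.E3.St3
import Pool.Agent.Helper49.PC.StM2

/-!
# Project PC: module MJA (expansion of the prime sum in characters)
-/

set_option autoImplicit false

namespace Pool.Agent.Helper29.E3

open Pool.Agent.Helper49.PC
open Finset ArithmeticFunction
open Pool.Agent.Helper48.BK (ex th lz Vz Pz gs nd Apx AdN Sol thd)
open scoped ComplexConjugate

theorem logpow_MJAX (k : ℕ) : ∀ᶠ n : ℕ in Filter.atTop, Real.log (n : ℝ) ^ k ≤ √(n : ℝ) := by
  have h1 := isLittleO_log_rpow_rpow_atTop (k : ℝ) (by norm_num : (0 : ℝ) < 1 / 2)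
  have h2 := (h1.comp_tendsto (tendsto_natCast_atTop_atTop (R := ℝ))).def (by norm_num : (0:ℝ) < 1)
  filter_upwards [h2, Filter.eventually_ge_atTop 1] with n hn h1n
  simp only [Function.comp_apply, Real.norm_eq_abs, one_mul] at hn
  rw [Real.rpow_natCast, ← Real.sqrt_eq_rpow, abs_of_nonneg (Real.sqrt_nonneg _)] at hn
  exact (le_abs_self _).trans hn

/-- the coefficients on integers coprime to `q` -/
noncomputable def FF_MJAX (q n : ℕ) : ℂ := if Nat.Coprime n q then ((Λ n : ℝ) : ℂ) else 0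

/-- splitting of the exponential sum -/
theorem split_MJAX (X D v q w₀ w₁ : ℕ) (h : ℤ) (η : ℝ) (hw : w₁ ≤ X) (hv : 1 ≤ v) (hD : 1 ≤ D)
    (j : ℕ) :
    Sj (cut th w₀ w₁) X D ((h : ℝ) / v + η) j =
      Sc (fun n => ((cut th w₀ w₁ n - (if Nat.Coprime n q then cut (fun n => Λ n) w₀ w₁ n
        else 0) : ℝ) : ℂ)) X (((h : ℝ) / v + η + j) / D) +
      ∑ n ∈ Ioc w₀ w₁, FF_MJAX q n * ex (n * ((h + j * v : ℤ) : ℝ) / (D * v : ℕ)) *
        ex (n * (η / D)) := by
  have hvR : (v : ℝ) ≠ 0 := by exact_mod_cast (by omega : v ≠ 0)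
  have hDR : (D : ℝ) ≠ 0 := by exact_mod_cast (by omega : D ≠ 0)
  unfold Sj Sc
  have e1 : ∑ n ∈ Ioc w₀ w₁, FF_MJAX q n * ex (n * ((h + j * v : ℤ) : ℝ) / (D * v : ℕ)) *
        ex (n * (η / D)) =
      ∑ n ∈ Ioc 0 X, (((if Nat.Coprime n q then cut (fun n => Λ n) w₀ w₁ n else 0 : ℝ)) : ℂ) *
        ex (n * (((h : ℝ) / v + η + j) / D)) := by
    have hsub : Ioc w₀ w₁ ⊆ Ioc 0 X := by
      intro n hn
      rw [Finset.mem_Ioc] at hn ⊢
      omega
    rw [← Finset.sum_subset hsub]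
    · refine Finset.sum_congr rfl fun n hn => ?_
      rw [Finset.mem_Ioc] at hn
      rw [mul_assoc, ← ex_add]
      have e2 : (n : ℝ) * ((h + j * v : ℤ) : ℝ) / (D * v : ℕ) + n * (η / D) =
          n * (((h : ℝ) / v + η + j) / D) := by
        push_cast
        field_simp
        ring
      rw [e2]
      congr 1
      unfold FF_MJAX cut
      split_ifs
      · rfl
      · simp
    · intro n _ hn2
      rw [Finset.mem_Ioc] at hn2
      unfold cut
      rw [if_neg hn2]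
      simp
  rw [e1, ← Finset.sum_add_distrib]
  refine Finset.sum_congr rfl fun n _ => ?_
  push_cast
  ring

/-- expansion in characters of the sum over one piece -/
theorem gex_MJAX (h3 : StGEX) (q : ℕ) [NeZero q] (a b : ℕ) (i : ℤ) :
    ∑ n ∈ Ioc a b, FF_MJAX q n * ex (n * i / q) =
      ∑ χ : DirichletCharacter ℂ q, Psi χ a b * Gs χ i := by
  rw [h3 q (Ioc a b) (FF_MJAX q) i (by
    intro n _ hne
    by_contra hcop
    exact hne (by unfold FF_MJAX; rw [if_neg hcop]))]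
  refine Finset.sum_congr rfl fun χ _ => ?_
  congr 1
  unfold Psi FF_MJAX
  refine Finset.sum_congr rfl fun n _ => ?_
  split_ifs with hcop
  · rfl
  · rw [zero_mul]
    have : χ (n : ZMod q) = 0 := by
      apply MulChar.map_nonunit
      rw [ZMod.isUnit_iff_coprime]
      exact hcop
    rw [this, mul_zero]

theorem hMJAX (h1 : StRED) (h2 : StSLO) (h3 : StGEX) : StMJAX := by
  intro A p
  obtain ⟨C, hC, hRED⟩ := h1
  have hlog : Filter.Tendsto (fun n : ℕ => Real.log (n : ℝ)) Filter.atTop Filter.atTop :=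
    Real.tendsto_log_atTop.comp tendsto_natCast_atTop_atTop
  obtain ⟨x₁, hx₁⟩ := Filter.eventually_atTop.1
    ((logpow_MJAX (2 * A + 6)).and ((hlog.eventually_ge_atTop (27 * C)).and
      (hlog.eventually_ge_atTop 60)))
  refine ⟨A + p + 3, max x₁ 3, ?_⟩
  intro M D v S _ w₀ w₁ h η hM hD hDM hv hvM hη hw hwM hS1 hSM
  have g1 : x₁ ≤ M := le_trans (le_max_left _ _) hM
  have g4 : 3 ≤ M := le_trans (le_max_right _ _) hM
  obtain ⟨l1, l2', l3⟩ := hx₁ M g1
  set L : ℝ := Real.log M with hL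
  have hL0 : 0 < L := by linarith
  have hL1 : 1 ≤ L := by linarith
  have hMR : (3 : ℝ) ≤ M := by exact_mod_cast g4
  have hDR : (1 : ℝ) ≤ D := by exact_mod_cast hD
  have hMX : M ≤ D * M := Nat.le_mul_of_pos_left M (by omega)
  have hX3 : 3 ≤ D * M := g4.trans hMX
  have hqX : D * v ≤ D * M := Nat.mul_le_mul_left D hvM
  have hq1 : 1 ≤ D * v := Nat.mul_pos hD hv
  set X : ℝ := ((D * M : ℕ) : ℝ) with hX
  have hXe : X = (D : ℝ) * M := by rw [hX]; push_cast; rfl
  have hX0 : 0 < X := by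
    rw [hXe]; positivity
  set ℓ : ℝ := Real.log X with hℓ
  have hlX2 : ℓ ≤ 3 * L := by
    have : Real.log X ≤ Real.log ((M : ℝ) ^ 3) := by
      refine Real.log_le_log hX0 ?_
      rw [hXe]
      have : (D : ℝ) ≤ (M : ℝ) ^ 2 := by exact_mod_cast hDM
      calc (D : ℝ) * M ≤ (M : ℝ) ^ 2 * M := by gcongr
        _ = (M : ℝ) ^ 3 := by ring
    rw [Real.log_pow] at this
    push_cast at this
    exact this
  have hℓ0 : 0 ≤ ℓ := Real.log_nonneg (by
    rw [hX]; exact_mod_cast (by omega : 1 ≤ D * M))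
  have hMXR : (M : ℝ) ≤ X := by rw [hX]; exact_mod_cast hMX
  have hSpos : (1 : ℝ) ≤ S := (one_le_pow₀ hL1).trans hS1
  have hS4 : 1 ≤ S := by exact_mod_cast hSpos
  -- the two parts
  have hsplit := split_MJAX (D * M) D v (D * v) w₀ w₁ h η hwM hv hD
  have kR := hRED (D * M) D (D * v) w₀ w₁ ((h : ℝ) / v + η) hX3 hD
    (Nat.le_mul_of_pos_right D (by omega)) hq1 hqX hwM
  have kR2 : l2 (range D) (fun j => Sc (fun n => ((cut th w₀ w₁ n -
      (if Nat.Coprime n (D * v) then cut (fun n => Λ n) w₀ w₁ n else 0) : ℝ) : ℂ)) (D * M)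
      (((h : ℝ) / v + η + j) / D)) ≤ X / L ^ (A + 1) := by
    rw [l2_le_iff _ _ _ (by positivity)]
    refine le_trans kR ?_
    rw [← hX, ← hℓ]
    have hsX : √X * √X = X := Real.mul_self_sqrt hX0.le
    have hsM : √(M : ℝ) ≤ √X := Real.sqrt_le_sqrt hMXR
    have e1 : C * ℓ ^ 3 * L ^ (2 * A + 2) ≤ √X := by
      calc C * ℓ ^ 3 * L ^ (2 * A + 2) ≤ C * (3 * L) ^ 3 * L ^ (2 * A + 2) := by gcongr
        _ = (27 * C) * L ^ (2 * A + 5) := by
            rw [show 2 * A + 5 = 3 + (2 * A + 2) by ring, pow_add L 3]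
            ring
        _ ≤ L * L ^ (2 * A + 5) := by gcongr
        _ = L ^ (2 * A + 6) := by
            rw [show 2 * A + 6 = (2 * A + 5) + 1 by ring, pow_succ L (2 * A + 5)]
            ring
        _ ≤ √(M : ℝ) := l1
        _ ≤ √X := hsM
    rw [div_pow, ← pow_mul, le_div_iff₀ (by positivity)]
    calc C * X * √X * ℓ ^ 3 * L ^ ((A + 1) * 2) = X * √X * (C * ℓ ^ 3 * L ^ (2 * A + 2)) := by
          rw [show (A + 1) * 2 = 2 * A + 2 by ring]
          ring
      _ ≤ X * √X * √X := by gcongr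
      _ = X ^ 2 := by rw [mul_assoc, hsX]; ring
  have kS := h2 M D v S w₀ w₁ h η (3 * L) (FF_MJAX (D * v)) (by omega) hD hv hS4
    (hSM.trans hMX) hw hwM (by positivity) (by
      intro n hn
      rw [Finset.mem_Ioc] at hn
      unfold FF_MJAX
      split_ifs
      · rw [Complex.norm_real, Real.norm_of_nonneg vonMangoldt_nonneg]
        refine (vonMangoldt_le_log.trans (Real.log_le_log ?_ ?_)).trans hlX2
        · exact_mod_cast (by omega : 0 < n)
        · rw [hX]
          exact_mod_cast hn.2.trans hwM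
      · rw [norm_zero]; positivity)
  have kS2 : 2 * ((D : ℝ) * M) * (3 * L) * (4 * Real.pi * |η| * M / S) ≤
      78 * (X / L ^ (A + 2)) := by
    have hpi : Real.pi ≤ 3.2 := by
      have := Real.pi_lt_d2
      linarith
    have e3 : 0 ≤ |η| := abs_nonneg _
    have e1 : L * (4 * Real.pi * |η| * M / S) ≤ 13 / L ^ (A + 2) := by
      rw [← mul_div_assoc, div_le_div_iff₀ (by linarith) (by positivity)]
      have e2 : L * L ^ p * L ^ (A + 2) ≤ S := by
        refine le_trans (le_of_eq ?_) hS1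
        rw [show A + p + 3 = 1 + p + (A + 2) by ring]
        ring
      calc L * (4 * Real.pi * |η| * M) * L ^ (A + 2) =
            4 * Real.pi * (L * (|η| * M) * L ^ (A + 2)) := by ring
        _ ≤ 4 * 3.2 * (L * (L ^ p) * L ^ (A + 2)) := by gcongr
        _ ≤ 4 * 3.2 * S := by gcongr
        _ ≤ 13 * S := by nlinarith
    calc 2 * ((D : ℝ) * M) * (3 * L) * (4 * Real.pi * |η| * M / S)
        = 6 * X * (L * (4 * Real.pi * |η| * M / S)) := by rw [hXe]; ring
      _ ≤ 6 * X * (13 / L ^ (A + 2)) := by gcongr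
      _ = 78 * (X / L ^ (A + 2)) := by ring
  have hfun : ∀ j : ℕ, Sj (cut th w₀ w₁) (D * M) D ((h : ℝ) / v + η) j -
      ∑ s ∈ range S, ex (tt w₀ w₁ S s * (η / D)) *
        ∑ χ : DirichletCharacter ℂ (D * v), Psi χ (tt w₀ w₁ S s) (tt w₀ w₁ S (s + 1)) *
          Gs χ (h + j * v) =
      Sc (fun n => ((cut th w₀ w₁ n - (if Nat.Coprime n (D * v) then cut (fun n => Λ n) w₀ w₁ n
        else 0) : ℝ) : ℂ)) (D * M) (((h : ℝ) / v + η + j) / D) +
      (∑ n ∈ Ioc w₀ w₁, FF_MJAX (D * v) n * ex (n * ((h + j * v : ℤ) : ℝ) / (D * v : ℕ)) *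
        ex (n * (η / D)) -
      ∑ s ∈ range S, ex (tt w₀ w₁ S s * (η / D)) *
        ∑ n ∈ Ioc (tt w₀ w₁ S s) (tt w₀ w₁ S (s + 1)),
          FF_MJAX (D * v) n * ex (n * ((h + j * v : ℤ) : ℝ) / (D * v : ℕ))) := by
    intro j
    rw [hsplit j, add_sub_assoc]
    congr 2
    refine Finset.sum_congr rfl fun s _ => ?_
    congr 1
    exact (gex_MJAX h3 (D * v) (tt w₀ w₁ S s) (tt w₀ w₁ S (s + 1)) (h + j * v)).symm
  have hfinal : l2 (range D) (fun j : ℕ => Sj (cut th w₀ w₁) (D * M) D ((h : ℝ) / v + η) j -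
      ∑ s ∈ range S, ex (tt w₀ w₁ S s * (η / D)) *
        ∑ χ : DirichletCharacter ℂ (D * v), Psi χ (tt w₀ w₁ S s) (tt w₀ w₁ S (s + 1)) *
          Gs χ (h + j * v)) ≤ (D : ℝ) * M / L ^ A := by
    rw [l2_congr _ _ _ (fun j _ => hfun j)]
    refine (l2_add_le _ _ _).trans ?_
    refine (add_le_add kR2 (kS.trans kS2)).trans ?_
    rw [← hXe]
    have e1 : X / L ^ (A + 1) + 78 * (X / L ^ (A + 2)) = X / L ^ A * (1 / L + 78 / L ^ 2) := by
      rw [pow_add, pow_add]
      field_simp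
    rw [e1]
    have e2 : 1 / L + 78 / L ^ 2 ≤ 1 := by
      have h5 : 1 / L ≤ 1 / 60 := by
        apply one_div_le_one_div_of_le (by norm_num) l3
      have h6 : 78 / L ^ 2 ≤ 78 / 3600 := by
        apply div_le_div_of_nonneg_left (by norm_num) (by norm_num)
        nlinarith
      linarith
    calc X / L ^ A * (1 / L + 78 / L ^ 2) ≤ X / L ^ A * 1 := by gcongr
      _ = X / L ^ A := mul_one _
  convert hfinal using 1

end Pool.Agent.Helper29.E3
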