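import Pool.Agent.Helper29.E3.St3
import Pool.Agent.Helper49.PC.StM
import Pool.Agent.Helper48.BK.M_PS

/-!
# Project PC, module MJZ: the model on the major arcs
-/

set_option autoImplicit false

namespace Pool.Agent.Helper29.E3

open Pool.Agent.Helper49.PC
open Finset ArithmeticFunction
open Pool.Agent.Helper48.BK (ex th lz Vz Pz gs nd Apx AdN Sol thd)
open scoped ComplexConjugate

theorem cut_sum_MJZX (f : ℕ → ℝ) (w₀ w₁ X : ℕ) (hX : w₁ ≤ X) (g : ℕ → ℂ) :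
    ∑ n ∈ Ioc 0 X, ((cut f w₀ w₁ n : ℝ) : ℂ) * g n = ∑ n ∈ Ioc w₀ w₁, (f n : ℂ) * g n := by
  have h1 : ∀ n ∈ Ioc 0 X, ((cut f w₀ w₁ n : ℝ) : ℂ) * g n =
      if w₀ < n ∧ n ≤ w₁ then (f n : ℂ) * g n else 0 := by
    intro n _
    unfold cut
    split_ifs
    · rfl
    · simp
  rw [sum_congr rfl h1, ← sum_filter]
  apply sum_congr _ (fun _ _ => rfl)
  ext n
  simp only [mem_filter, mem_Ioc]
  constructor
  · rintro ⟨-, h2, h3⟩
    exact ⟨h2, h3⟩
  · rintro ⟨h2, h3⟩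
    exact ⟨⟨by omega, by omega⟩, h2, h3⟩

/-- class sums -/
theorem cls_MJZX (f : ℕ → ℝ) (X q x w₀ w₁ : ℕ) (E β κ : ℝ) (hE : 0 ≤ E) (hw : w₀ ≤ w₁)
    (hwX : w₁ ≤ X)
    (hyp : ∀ y ≤ X, |∑ n ∈ (Ioc 0 y).filter (fun n => n ≡ x [MOD q]), f n - (y : ℝ) * κ| ≤ E) :
    ‖∑ n ∈ Ioc w₀ w₁, (((if n ≡ x [MOD q] then f n else 0 : ℝ)) : ℂ) * ex (n * β) -
      (κ : ℂ) * ∑ n ∈ Ioc w₀ w₁, ex (n * β)‖ ≤ 2 * (E * (1 + 2 * Real.pi * |β| * X)) := by
  have hR : ∀ y ≤ X, ‖∑ n ∈ Ioc 0 y, ((((if n ≡ x [MOD q] then f n else 0 : ℝ) - κ : ℝ)) : ℂ) *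
      ex (n * β)‖ ≤ E * (1 + 2 * Real.pi * |β| * X) := by
    intro y hy
    have h1 := Pool.Agent.Helper48.BK.abel_PS
      (fun n => (if n ≡ x [MOD q] then f n else 0 : ℝ) - κ) β E hE y (by
        intro m hm
        have h2 := hyp m (hm.trans hy)
        rw [sum_filter] at h2
        rw [sum_sub_distrib, sum_const, Nat.card_Ioc, nsmul_eq_mul]
        simpa using h2)
    refine h1.trans (mul_le_mul_of_nonneg_left ?_ hE)
    have h3 : (y : ℝ) ≤ X := by exact_mod_cast hy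
    have h4 : 0 ≤ 2 * Real.pi * |β| := by positivity
    have := mul_le_mul_of_nonneg_left h3 h4
    linarith
  have h5 : ∑ n ∈ Ioc w₀ w₁, (((if n ≡ x [MOD q] then f n else 0 : ℝ)) : ℂ) * ex (n * β) -
      (κ : ℂ) * ∑ n ∈ Ioc w₀ w₁, ex (n * β) =
      ∑ n ∈ Ioc 0 w₁, ((((if n ≡ x [MOD q] then f n else 0 : ℝ) - κ : ℝ)) : ℂ) * ex (n * β) -
      ∑ n ∈ Ioc 0 w₀, ((((if n ≡ x [MOD q] then f n else 0 : ℝ) - κ : ℝ)) : ℂ) *
        ex (n * β) := by
    rw [← sum_Ioc_consecutive _ (Nat.zero_le w₀) hw, add_sub_cancel_left, mul_sum,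
      ← sum_sub_distrib]
    apply sum_congr rfl
    intro n _
    rw [Complex.ofReal_sub, sub_mul]
  rw [h5]
  have h6 := hR w₁ hwX
  have h7 := hR w₀ (hw.trans hwX)
  refine (norm_sub_le _ _).trans ?_
  linarith

/-- grouping by classes -/
theorem grp_MJZX (F : ℕ → ℝ) (q w₀ w₁ : ℕ) (hq0 : 0 < q) (i : ℤ) (β : ℝ) :
    ∑ n ∈ Ioc w₀ w₁, (((if Nat.Coprime n q then F n else 0 : ℝ)) : ℂ) *
      ex (n * ((i : ℝ) / q + β)) =
    ∑ x ∈ range q, (if Nat.Coprime x q then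
      (∑ n ∈ Ioc w₀ w₁, (((if n ≡ x [MOD q] then F n else 0 : ℝ)) : ℂ) * ex (n * β)) else 0) *
        ex ((i : ℝ) * x / q) := by
  classical
  have hqR : (q : ℝ) ≠ 0 := by exact_mod_cast hq0.ne'
  have h0 : ∀ x ∈ range q, (if Nat.Coprime x q then
      (∑ n ∈ Ioc w₀ w₁, (((if n ≡ x [MOD q] then F n else 0 : ℝ)) : ℂ) * ex (n * β)) else 0) *
        ex ((i : ℝ) * x / q) = ∑ n ∈ Ioc w₀ w₁, (if Nat.Coprime x q ∧ n ≡ x [MOD q] then
          (F n : ℂ) * ex (n * β) * ex ((i : ℝ) * x / q) else 0) := by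
    intro x _
    by_cases hx : Nat.Coprime x q
    · rw [if_pos hx, sum_mul]
      apply sum_congr rfl
      intro n _
      by_cases hn : n ≡ x [MOD q]
      · rw [if_pos hn, if_pos ⟨hx, hn⟩]
      · rw [if_neg hn, if_neg (fun h => hn h.2)]
        simp
    · rw [if_neg hx, zero_mul]
      symm
      apply sum_eq_zero
      intro n _
      rw [if_neg (fun h => hx h.1)]
  rw [sum_congr rfl h0, sum_comm]
  apply sum_congr rfl
  intro n _
  rw [sum_eq_single (n % q)]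
  · have hcop : Nat.Coprime (n % q) q ↔ Nat.Coprime n q := by
      unfold Nat.Coprime
      rw [← Nat.gcd_rec, Nat.gcd_comm]
    have h1 : ex ((n : ℝ) * ((i : ℝ) / q + β)) =
        ex (n * β) * ex ((i : ℝ) * ((n % q : ℕ) : ℝ) / q) := by
      have h2 : (n : ℝ) = ((n % q : ℕ) : ℝ) + q * ((n / q : ℕ) : ℝ) := by
        exact_mod_cast (Nat.mod_add_div n q).symm
      have h3 : (n : ℝ) * ((i : ℝ) / q + β) = ((i * (n / q : ℕ) : ℤ) : ℝ) +
          (n * β + (i : ℝ) * ((n % q : ℕ) : ℝ) / q) := by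
        have h4 : (n : ℝ) * ((i : ℝ) / q) = ((i * (n / q : ℕ) : ℤ) : ℝ) +
            (i : ℝ) * ((n % q : ℕ) : ℝ) / q := by
          have h5 : ((i * (n / q : ℕ) : ℤ) : ℝ) = (i : ℝ) * ((n / q : ℕ) : ℝ) := by
            rw [Int.cast_mul, Int.cast_natCast]
          rw [h5]
          nth_rewrite 1 [h2]
          field_simp
          ring
        rw [mul_add, h4]
        ring
      rw [h3, ex_add, ex_int, one_mul, ex_add]
    by_cases hn : Nat.Coprime n q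
    · rw [if_pos hn, if_pos ⟨hcop.2 hn, (Nat.mod_modEq n q).symm⟩, h1, mul_assoc]
    · rw [if_neg hn, if_neg (fun h => hn (hcop.1 h.1))]
      simp
  · intro u hu hne
    rw [if_neg]
    rintro ⟨-, hc⟩
    apply hne
    have h1 : n % q = u % q := hc
    rw [h1, Nat.mod_eq_of_lt (mem_range.1 hu)]
  · intro hc
    exact absurd (mem_range.2 (Nat.mod_lt n hq0)) hc

/-- the principal Gauss sum -/
theorem gs_one_MJZX (q : ℕ) [NeZero q] (i : ℤ) (c : ℂ) :
    c * Gs (1 : DirichletCharacter ℂ q) i =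
      ∑ x ∈ range q, (if Nat.Coprime x q then (((1 / (Nat.totient q : ℝ)) : ℝ) : ℂ) * c else 0) *
        ex ((i : ℝ) * x / q) := by
  unfold Gs
  rw [← mul_assoc, mul_sum]
  apply sum_congr rfl
  intro x _
  by_cases hx : Nat.Coprime x q
  · have hu : IsUnit ((x : ℕ) : ZMod q) := (ZMod.isUnit_iff_coprime x q).2 hx
    rw [if_pos hx, MulChar.one_apply hu]
    push_cast
    rw [map_one]
    ring
  · have hu : ¬ IsUnit ((x : ℕ) : ZMod q) := fun h => hx ((ZMod.isUnit_iff_coprime x q).1 h)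
    rw [if_neg hx, MulChar.map_nonunit _ hu]
    simp

/-- Parseval at the points `h + j v` -/
theorem shf_MJZX (hPVI : StPVI) (D v : ℕ) (hD : 1 ≤ D) (hv : 1 ≤ v) (h : ℤ) (b : ℕ → ℂ) (K : ℝ)
    (hK : 0 ≤ K) (hb : ∀ x ∈ range (D * v), ‖b x‖ ≤ K) :
    l2 (range D) (fun j => ∑ x ∈ range (D * v),
      b x * ex (((h + j * v : ℤ) : ℝ) * x / (D * v : ℕ))) ≤ ((D * v : ℕ) : ℝ) * K := by
  have hq0 : 0 < D * v := by positivity
  rw [l2_le_iff _ _ _ (by positivity)]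
  obtain ⟨q, hq⟩ : ∃ q, q = D * v := ⟨_, rfl⟩
  rw [← hq] at hq0 hb ⊢
  have hqR : (q : ℝ) ≠ 0 := by exact_mod_cast hq0.ne'
  have hqZ : (q : ℤ) ≠ 0 := by exact_mod_cast hq0.ne'
  have hqZ0 : (0 : ℤ) < q := by exact_mod_cast hq0
  obtain ⟨φ, hφ⟩ : ∃ φ : ℕ → ℕ, ∀ j, (φ j : ℤ) = (h + j * v) % q :=
    ⟨fun j => ((h + j * v) % q).toNat, fun j => Int.toNat_of_nonneg (Int.emod_nonneg _ hqZ)⟩
  have hφq : ∀ j, φ j < q := by
    intro j
    have h1 := Int.emod_lt_of_pos (h + j * v) hqZ0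
    rw [← hφ j] at h1
    exact_mod_cast h1
  have hinj : Set.InjOn φ (range D : Set ℕ) := by
    intro j hj k hk hjk
    have hj' := mem_range.1 (mem_coe.1 hj)
    have hk' := mem_range.1 (mem_coe.1 hk)
    have h1 : (h + j * v) % (q : ℤ) = (h + k * v) % (q : ℤ) := by
      rw [← hφ j, ← hφ k, hjk]
    have h2 : (q : ℤ) ∣ ((h + k * v) - (h + j * v)) := Int.ModEq.dvd h1
    have h3 : ((D : ℤ) * v) ∣ ((k : ℤ) - j) * v := by
      have h4 : ((k : ℤ) - j) * v = (h + k * v) - (h + j * v) := by ring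
      rw [h4]
      have h5 : (q : ℤ) = (D : ℤ) * v := by rw [hq]; push_cast; ring
      rw [← h5]
      exact h2
    have hv0 : (v : ℤ) ≠ 0 := by exact_mod_cast (by omega : v ≠ 0)
    have h6 : (D : ℤ) ∣ (k : ℤ) - j := (mul_dvd_mul_iff_right hv0).1 h3
    have h7 : |(k : ℤ) - j| < D := by
      rw [abs_lt]
      constructor <;> omega
    have h8 := Int.eq_zero_of_abs_lt_dvd h6 h7
    omega
  have hper : ∀ j : ℕ, ∀ x ∈ range q, ex (((h + j * v : ℤ) : ℝ) * x / (q : ℕ)) =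
      ex (((φ j : ℕ) : ℝ) * x / q) := by
    intro j x _
    have h1 : ((h + j * v : ℤ) : ℝ) = ((φ j : ℕ) : ℝ) + q * (((h + j * v) / (q : ℤ) : ℤ) : ℝ) := by
      have h2 : (h + j * v : ℤ) = ((φ j : ℕ) : ℤ) + q * ((h + j * v) / (q : ℤ)) := by
        rw [hφ j]
        exact (Int.emod_add_mul_ediv _ _).symm
      have h3 := congrArg (Int.cast (R := ℝ)) h2
      rw [h3]
      push_cast
      ring
    have h4 : ((h + j * v : ℤ) : ℝ) * x / (q : ℕ) =
        ((((h + j * v) / (q : ℤ)) * x : ℤ) : ℝ) + ((φ j : ℕ) : ℝ) * x / q := by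
      rw [h1]
      rw [Int.cast_mul, Int.cast_natCast]
      field_simp
      ring
    rw [h4, ex_add, ex_int, one_mul]
  have h1 : ∑ j ∈ range D, ‖∑ x ∈ range q,
      b x * ex (((h + j * v : ℤ) : ℝ) * x / (q : ℕ))‖ ^ 2 =
      ∑ j ∈ range D, ‖∑ x ∈ range q, b x * ex (((φ j : ℕ) : ℝ) * x / q)‖ ^ 2 := by
    apply sum_congr rfl
    intro j _
    rw [sum_congr rfl (fun x hx => by rw [hper j x hx])]
  rw [h1]
  have h2 : ∑ j ∈ range D, ‖∑ x ∈ range q, b x * ex (((φ j : ℕ) : ℝ) * x / q)‖ ^ 2 =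
      ∑ i ∈ (range D).image φ, ‖∑ x ∈ range q, b x * ex ((i : ℝ) * x / q)‖ ^ 2 :=
    (sum_image (f := fun i : ℕ => ‖∑ x ∈ range q, b x * ex ((i : ℝ) * x / q)‖ ^ 2) hinj).symm
  rw [h2]
  have h3 : (range D).image φ ⊆ range q := by
    intro i hi
    obtain ⟨j, -, rfl⟩ := mem_image.1 hi
    exact mem_range.2 (hφq j)
  refine (sum_le_sum_of_subset_of_nonneg h3 fun _ _ _ => sq_nonneg _).trans ?_
  rw [hPVI q b (by omega)]
  have h4 : ∑ x ∈ range q, ‖b x‖ ^ 2 ≤ ∑ x ∈ range q, K ^ 2 :=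
    sum_le_sum fun x hx => pow_le_pow_left₀ (norm_nonneg _) (hb x hx) 2
  rw [sum_const, card_range, nsmul_eq_mul] at h4
  calc (q : ℝ) * ∑ x ∈ range q, ‖b x‖ ^ 2 ≤ q * (q * K ^ 2) :=
        mul_le_mul_of_nonneg_left h4 (by positivity)
    _ = (q * K) ^ 2 := by ring

/-- numbers, the non coprime part -/
theorem num1_MJZX (A : ℕ) (C X L l z S N : ℝ) (D : ℝ) (hC : 0 < C) (hX : 0 < X) (hL : 1 ≤ L)
    (hLC : 216 * C ≤ L) (hl0 : 0 ≤ l) (hl : l ≤ 3 * L) (hb : L ^ (2 * A + 4) ≤ z) (hD : D ≤ X)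
    (hS0 : 0 ≤ S) (hS : S ≤ C * X * l ^ 3 / z) (hN : N ≤ (X + D) * S) :
    √N ≤ X / L ^ A / 2 := by
  have hL0 : 0 < L := by linarith
  have hz : 0 < z := lt_of_lt_of_le (by positivity) hb
  rw [Real.sqrt_le_left (by positivity)]
  have h1 : S ≤ C * X * (27 * L ^ 3) / L ^ (2 * A + 4) := by
    refine hS.trans ?_
    apply div_le_div₀ (by positivity) _ (by positivity) hb
    apply mul_le_mul_of_nonneg_left _ (by positivity)
    calc l ^ 3 ≤ (3 * L) ^ 3 := pow_le_pow_left₀ hl0 hl 3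
      _ = 27 * L ^ 3 := by ring
  have h2 : N ≤ (2 * X) * (C * X * (27 * L ^ 3) / L ^ (2 * A + 4)) := by
    refine hN.trans ?_
    exact mul_le_mul (by linarith) h1 hS0 (by positivity)
  refine h2.trans ?_
  have h3 : (2 * X) * (C * X * (27 * L ^ 3) / L ^ (2 * A + 4)) =
      (X ^ 2 / (L ^ A) ^ 2) * (54 * C / L) := by
    have : L ^ (2 * A + 4) = (L ^ A) ^ 2 * L ^ 4 := by rw [← pow_mul, ← pow_add]; congr 1; ring
    rw [this]
    field_simp
    ring
  have h4 : (X / L ^ A / 2) ^ 2 = (X ^ 2 / (L ^ A) ^ 2) * (1 / 4) := by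
    rw [div_pow, div_pow]
    ring
  rw [h3, h4]
  apply mul_le_mul_of_nonneg_left _ (by positivity)
  rw [div_le_div_iff₀ hL0 (by norm_num)]
  linarith

/-- numbers, the coprime part -/
theorem num2_MJZX (A p : ℕ) (X L l q β : ℝ) (hX : 0 < X) (hq : 0 < q) (hL : 6 ≤ L) (hl : L ≤ l)
    (hβ0 : 0 ≤ β) (hβ : β * X ≤ L ^ p) :
    q * (2 * (X / q / l ^ (A + p + 2) * (1 + 2 * Real.pi * β * X))) ≤ X / L ^ A / 2 := by
  have hL0 : 0 < L := by linarith
  have hl0 : 0 < l := by linarith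
  have h1 : 1 + 2 * Real.pi * β * X ≤ 9 * L ^ p := by
    have h2 : (1 : ℝ) ≤ L ^ p := one_le_pow₀ (by linarith)
    have h3 : Real.pi ≤ 4 := Real.pi_le_four
    have h4 : 2 * Real.pi * β * X ≤ 8 * L ^ p := by
      calc 2 * Real.pi * β * X = 2 * Real.pi * (β * X) := by ring
        _ ≤ 8 * L ^ p := mul_le_mul (by linarith) hβ (by positivity) (by norm_num)
    linarith
  have h5 : L ^ (A + p + 2) ≤ l ^ (A + p + 2) := pow_le_pow_left₀ hL0.le hl _
  have h6 : X / q / l ^ (A + p + 2) ≤ X / q / L ^ (A + p + 2) := by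
    apply div_le_div_of_nonneg_left (by positivity) (by positivity) h5
  have h7 : X / q / l ^ (A + p + 2) * (1 + 2 * Real.pi * β * X) ≤
      X / q / L ^ (A + p + 2) * (9 * L ^ p) :=
    mul_le_mul h6 h1 (by positivity) (by positivity)
  have h8 : q * (2 * (X / q / l ^ (A + p + 2) * (1 + 2 * Real.pi * β * X))) ≤
      q * (2 * (X / q / L ^ (A + p + 2) * (9 * L ^ p))) :=
    mul_le_mul_of_nonneg_left (mul_le_mul_of_nonneg_left h7 (by norm_num)) hq.le
  refine h8.trans ?_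
  have h9 : q * (2 * (X / q / L ^ (A + p + 2) * (9 * L ^ p))) = X / L ^ A * (18 / L ^ 2) := by
    rw [pow_add, pow_add]
    field_simp
    ring
  rw [h9, div_eq_mul_inv (X / L ^ A) 2]
  apply mul_le_mul_of_nonneg_left _ (by positivity)
  rw [← one_div, div_le_div_iff₀ (by positivity) (by norm_num)]
  nlinarith

theorem hMJZX (h1 : StTRV) (h2 : StNUZ) (h3 : StAZ2X) (h4 : StPVI) : StMJZX := by
  intro A p
  refine ⟨2 * (A + p + 5), ?_⟩
  intro B
  obtain ⟨C, hC, hNU⟩ := h2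
  obtain ⟨x₁, hx₁⟩ := h3 (A + p + 2) B
  obtain ⟨x₂, hx₂⟩ : ∃ x₂ : ℕ, ∀ M : ℕ, x₂ ≤ M → max (216 * C) 6 ≤ Real.log M := by
    have := (Real.tendsto_log_atTop.comp tendsto_natCast_atTop_atTop).eventually_ge_atTop
      (max (216 * C) 6)
    obtain ⟨m₂, h⟩ := Filter.eventually_atTop.1 this
    exact ⟨m₂, fun m hm => h m hm⟩
  have hpw : ∀ B : ℕ, ∃ x₃ : ℕ, ∀ M : ℕ, x₃ ≤ M → Real.log M ^ B ≤ M := by
    intro B
    have h5 := (Real.isLittleO_pow_log_id_atTop (n := B)).bound (zero_lt_one)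
    have h6 := tendsto_natCast_atTop_atTop.eventually h5
    obtain ⟨m₂, h⟩ := Filter.eventually_atTop.1 h6
    refine ⟨m₂, fun m hm => ?_⟩
    have h7 := h m hm
    simp only [id, one_mul] at h7
    rw [Real.norm_eq_abs, Real.norm_eq_abs, Nat.abs_cast] at h7
    exact (le_abs_self _).trans h7
  obtain ⟨x₃, hx₃⟩ := hpw B
  obtain ⟨x₄, hx₄⟩ := hpw (p * 4)
  refine ⟨max (max x₁ x₄) (max x₂ (max x₃ 3)), ?_⟩
  intro M D v _ z w₀ w₁ h η hM' hD1 hDM hv1 hvL hηL hw hwX hbz hzB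
  have hM5 : x₄ ≤ M := le_trans (le_trans (le_max_right _ _) (le_max_left _ _)) hM'
  have hM : max x₁ (max x₂ (max x₃ 3)) ≤ M :=
    max_le (le_trans (le_trans (le_max_left _ _) (le_max_left _ _)) hM')
      (le_trans (le_max_right _ _) hM')
  have hM1 : x₁ ≤ M := le_trans (le_max_left _ _) hM
  have hM2 : x₂ ≤ M := le_trans (le_trans (le_max_left _ _) (le_max_right _ _)) hM
  have hM3 : x₃ ≤ M := le_trans (le_trans (le_trans (le_max_left _ _) (le_max_right _ _))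
    (le_max_right _ _)) hM
  have hM4 : 3 ≤ M := le_trans (le_trans (le_trans (le_max_right _ _) (le_max_right _ _))
    (le_max_right _ _)) hM
  have hL := hx₂ M hM2
  have hLB := hx₃ M hM3
  have hL64 : 216 * C ≤ Real.log M := (le_max_left _ _).trans hL
  have hL6 : 6 ≤ Real.log M := (le_max_right _ _).trans hL
  obtain ⟨X, hX⟩ : ∃ X, X = D * M := ⟨_, rfl⟩
  obtain ⟨q, hq⟩ : ∃ q, q = D * v := ⟨_, rfl⟩
  have hMX : M ≤ X := by rw [hX]; nlinarith
  have hDX : D ≤ X := by rw [hX]; exact Nat.le_mul_of_pos_right D (by omega)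
  have hX3 : 3 ≤ X := hM4.trans hMX
  have hq1 : 1 ≤ q := by rw [hq]; exact Nat.one_le_iff_ne_zero.2 (by positivity)
  have hv4 : v ^ 4 ≤ M := by
    have h5 : ((v : ℝ)) ^ 4 ≤ M := by
      calc (v : ℝ) ^ 4 ≤ (Real.log M ^ p) ^ 4 := pow_le_pow_left₀ (by positivity) hvL 4
        _ = Real.log M ^ (p * 4) := by rw [pow_mul]
        _ ≤ M := hx₄ M hM5
    exact_mod_cast h5
  have hvM : v ≤ M := (Nat.le_self_pow (by norm_num) v).trans hv4
  have hqX : q ≤ X := by rw [hq, hX]; exact Nat.mul_le_mul_left D hvM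
  have hq2X : q ^ 4 ≤ X ^ 3 := by
    rw [hq, hX]
    calc (D * v) ^ 4 = D ^ 3 * (D * v ^ 4) := by ring
      _ ≤ D ^ 3 * (M ^ 2 * M) := Nat.mul_le_mul_left _ (Nat.mul_le_mul hDM hv4)
      _ = (D * M) ^ 3 := by ring
  have hMR : (3 : ℝ) ≤ M := by exact_mod_cast hM4
  have hXR : (3 : ℝ) ≤ X := by exact_mod_cast hX3
  have hLl : Real.log M ≤ Real.log X :=
    Real.log_le_log (by linarith) (by exact_mod_cast hMX)
  have hlL : Real.log X ≤ 3 * Real.log M := by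
    have h5 : (X : ℝ) ≤ (M : ℝ) ^ 3 := by
      have : X ≤ M ^ 3 := by rw [hX, pow_succ]; exact Nat.mul_le_mul_right M hDM
      exact_mod_cast this
    calc Real.log X ≤ Real.log ((M : ℝ) ^ 3) := Real.log_le_log (by linarith) h5
      _ = 3 * Real.log M := by rw [Real.log_pow]; norm_num
  -- the level
  have hzl : Real.log X ^ (A + p + 2 + 3) ≤ z := by
    refine le_trans ?_ hbz
    calc Real.log X ^ (A + p + 2 + 3) ≤ (3 * Real.log M) ^ (A + p + 2 + 3) :=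
          pow_le_pow_left₀ (by linarith) hlL _
      _ ≤ (Real.log M ^ 2) ^ (A + p + 2 + 3) :=
          pow_le_pow_left₀ (by linarith) (by nlinarith) _
      _ = Real.log M ^ (2 * (A + p + 5)) := by rw [← pow_mul]
  have hzB' : (z : ℝ) ≤ Real.log X ^ B :=
    hzB.trans (pow_le_pow_left₀ (by linarith) hLl _)
  have hz2 : 2 ≤ z := by
    have h5 : Real.log M ≤ Real.log M ^ (2 * (A + p + 5)) := by
      calc Real.log M = Real.log M ^ 1 := (pow_one _).symm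
        _ ≤ _ := pow_le_pow_right₀ (by linarith) (by omega)
    have h6 : (2 : ℝ) ≤ z := by linarith
    exact_mod_cast h6
  have hzX : z ≤ X := by
    have h5 : (z : ℝ) ≤ X := (hzB.trans hLB).trans (by exact_mod_cast hMX)
    exact_mod_cast h5
  have hz24 : Real.log M ^ (2 * A + 4) ≤ z :=
    (pow_le_pow_right₀ (by linarith) (by omega)).trans hbz
  -- the non coprime part
  obtain ⟨F₁, hF₁⟩ : ∃ F₁ : ℕ → ℝ, F₁ = fun n => if Nat.Coprime n q then 0 else lz z n :=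
    ⟨_, rfl⟩
  obtain ⟨F₂, hF₂⟩ : ∃ F₂ : ℕ → ℝ, F₂ = fun n => if Nat.Coprime n q then lz z n else 0 :=
    ⟨_, rfl⟩
  have hF : ∀ n, lz z n = F₁ n + F₂ n := by
    intro n
    rw [hF₁, hF₂]
    by_cases hn : Nat.Coprime n q
    · simp only [if_pos hn, zero_add]
    · simp only [if_neg hn, add_zero]
  have hbd1 : √(NN (fun n => ((cut F₁ w₀ w₁ n : ℝ) : ℂ)) X D ((h : ℝ) / v + η)) ≤
      (X : ℝ) / Real.log M ^ A / 2 := by
    have hNN := h1 (fun n => ((cut F₁ w₀ w₁ n : ℝ) : ℂ)) X D ((h : ℝ) / v + η) hD1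
    refine num1_MJZX A C X (Real.log M) (Real.log X) z
      (∑ n ∈ (Ioc 0 X).filter (fun n => ¬ Nat.Coprime n q), lz z n ^ 2) _ D hC (by linarith)
      (by linarith) hL64 (by linarith) hlL hz24 (by exact_mod_cast hDX)
      (sum_nonneg fun _ _ => sq_nonneg _) (hNU X z q hX3 hz2 hzX hq1 hqX) (hNN.trans ?_)
    apply mul_le_mul_of_nonneg_left _ (by positivity)
    rw [sum_filter]
    apply sum_le_sum
    intro n _
    rw [Complex.norm_real, Real.norm_eq_abs, sq_abs]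
    unfold cut
    rw [hF₁]
    by_cases hn : Nat.Coprime n q
    · rw [if_neg (not_not.2 hn)]
      simp only [if_pos hn, ite_self]
      norm_num
    · rw [if_pos hn]
      simp only [if_neg hn]
      split_ifs
      · exact le_rfl
      · nlinarith [sq_nonneg (lz z n)]
  -- the coprime part
  obtain ⟨b, hb⟩ : ∃ b : ℕ → ℂ, b = fun x => (if Nat.Coprime x q then
      (∑ n ∈ Ioc w₀ w₁, (((if n ≡ x [MOD q] then lz z n else 0 : ℝ)) : ℂ) * ex (n * (η / D))) -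
        (((1 / (Nat.totient q : ℝ)) : ℝ) : ℂ) * c0 D w₀ w₁ η else 0) := ⟨_, rfl⟩
  have hbb : ∀ x ∈ range q, ‖b x‖ ≤
      2 * ((X : ℝ) / q / Real.log X ^ (A + p + 2) * (1 + 2 * Real.pi * |η / D| * X)) := by
    intro x _
    rw [hb]
    by_cases hx : Nat.Coprime x q
    · simp only [if_pos hx]
      unfold c0
      apply cls_MJZX (lz z) X q x w₀ w₁ _ (η / D) _ (by positivity) hw (by rw [hX]; exact hwX)
      intro y hy
      have h5 := hx₁ X y z q x (hM1.trans hMX) hy hzl hzB' hq1 hq2X hx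
      rw [mul_one_div]
      exact h5
    · simp only [if_neg hx, norm_zero]
      positivity
  have hDR : (0 : ℝ) < D := by exact_mod_cast hD1
  have hvR : (0 : ℝ) < v := by exact_mod_cast hv1
  have hbd2 := shf_MJZX h4 D v hD1 hv1 h b
    (2 * ((X : ℝ) / q / Real.log X ^ (A + p + 2) * (1 + 2 * Real.pi * |η / D| * X)))
    (by positivity) (by rw [← hq]; exact hbb)
  rw [← hq] at hbd2
  have hηX : |η / D| * X ≤ Real.log M ^ p := by
    rw [abs_div, abs_of_pos hDR, hX, Nat.cast_mul]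
    calc |η| / D * (D * M) = |η| * M := by field_simp
      _ ≤ _ := hηL
  have hbd3 := num2_MJZX A p X (Real.log M) (Real.log X) q |η / D| (by linarith)
    (by exact_mod_cast hq1) hL6 hLl (abs_nonneg _) hηX
  -- assembly
  have hmain : l2 (range D) (fun j => Sj (cut (lz z) w₀ w₁) (D * M) D ((h : ℝ) / v + η) j -
      c0 D w₀ w₁ η * Gs (1 : DirichletCharacter ℂ (D * v)) (h + j * v)) =
      l2 (range D) (fun j => Sc (fun n => ((cut F₁ w₀ w₁ n : ℝ) : ℂ)) X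
        (((h : ℝ) / v + η + j) / D) +
        ∑ x ∈ range q, b x * ex (((h + j * v : ℤ) : ℝ) * x / (q : ℕ))) := by
    apply l2_congr
    intro j _
    have e1 : ((h : ℝ) / v + η + j) / D = (((h + j * v : ℤ) : ℝ) / q + η / D) := by
      rw [hq]
      push_cast
      field_simp
      ring
    rw [gs_one_MJZX]
    unfold Sj Sc
    rw [← hX, ← hq, cut_sum_MJZX _ _ _ _ (by rw [hX]; exact hwX),
      cut_sum_MJZX _ _ _ _ (by rw [hX]; exact hwX)]
    have e2 : ∑ n ∈ Ioc w₀ w₁, (lz z n : ℂ) * ex (n * (((h : ℝ) / v + η + j) / D)) =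
        ∑ n ∈ Ioc w₀ w₁, (F₁ n : ℂ) * ex (n * (((h : ℝ) / v + η + j) / D)) +
        ∑ n ∈ Ioc w₀ w₁, (F₂ n : ℂ) * ex (n * (((h : ℝ) / v + η + j) / D)) := by
      rw [← sum_add_distrib]
      apply sum_congr rfl
      intro n _
      rw [hF n]
      push_cast
      ring
    rw [e2, add_sub_assoc]
    congr 1
    rw [e1, hF₂, grp_MJZX (lz z) q w₀ w₁ (by omega) (h + j * v) (η / D), ← sum_sub_distrib]
    apply sum_congr rfl
    intro x _
    rw [hb, ← sub_mul]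
    by_cases hx : Nat.Coprime x q
    · simp only [if_pos hx]
    · simp only [if_neg hx, sub_zero]
  rw [hmain]
  refine (l2_add_le _ _ _).trans ?_
  have hfin : l2 (range D) (fun j => Sc (fun n => ((cut F₁ w₀ w₁ n : ℝ) : ℂ)) X
        (((h : ℝ) / v + η + j) / D)) ≤ (X : ℝ) / Real.log M ^ A / 2 := hbd1
  have hsum : (X : ℝ) = (D : ℝ) * M := by rw [hX]; push_cast; ring
  rw [← hsum]
  have := hbd2.trans hbd3
  linarith

end Pool.Agent.Helper29.E3
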