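import Pool.Agent.Helper29.E3.St3
import Pool.Agent.Helper49.PC.StE

/-! Project PC, module PMAE: total of the major arcs. -/

set_option autoImplicit false

namespace Pool.Agent.Helper29.E3

open Pool.Agent.Helper49.PC
open Finset ArithmeticFunction Classical
open Pool.Agent.Helper48.BK (ex th lz Vz Pz gs nd Apx AdN Sol thd)
open scoped ComplexConjugate

private theorem ev_PMAX (p : ℕ) : ∃ x₀ : ℕ, ∀ Z : ℕ, x₀ ≤ Z → 1 ≤ Z ∧
    (4 : ℝ) ≤ Real.log (16 * Z) ∧ 2 * Real.log (16 * Z) ^ p ≤ 16 * (Z : ℝ) := by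
  have hM : Filter.Tendsto (fun Z : ℕ => (16 : ℝ) * Z) Filter.atTop Filter.atTop :=
    Filter.Tendsto.const_mul_atTop (by norm_num) tendsto_natCast_atTop_atTop
  have hl : Filter.Tendsto (fun Z : ℕ => Real.log (16 * Z)) Filter.atTop Filter.atTop :=
    Real.tendsto_log_atTop.comp hM
  have ho := (isLittleO_log_rpow_rpow_atTop (p : ℝ)
    (by norm_num : (0 : ℝ) < 1)).bound (by norm_num : (0 : ℝ) < 1 / 2)
  have ho2 := hM.eventually ho
  have hev : ∀ᶠ Z : ℕ in Filter.atTop, 1 ≤ Z ∧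
    (4 : ℝ) ≤ Real.log (16 * Z) ∧ 2 * Real.log (16 * Z) ^ p ≤ 16 * (Z : ℝ) := by
    filter_upwards [hl.eventually_ge_atTop 4, ho2, Filter.eventually_ge_atTop 1] with Z a1 a2 a3
    refine ⟨a3, a1, ?_⟩
    rw [Real.rpow_natCast, Real.rpow_one, Real.norm_eq_abs, Real.norm_eq_abs,
      abs_of_nonneg (by positivity), abs_of_nonneg (by positivity)] at a2
    linarith
  exact Filter.eventually_atTop.1 hev

theorem hPMAX (h1 : StMJRX) (h2 : StMEA) : StPMAX := by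
  intro N p K
  obtain ⟨b, h1⟩ := h1 N (2 * p + 3) (p + 1) K
  refine ⟨b, fun B => ?_⟩
  obtain ⟨x₁, h1⟩ := h1 B
  obtain ⟨x₂, hx₂⟩ := ev_PMAX p
  refine ⟨max x₁ x₂, ?_⟩
  intro a b' c Z z d hZ ha hb hc hE hD1 hD2 hD3 hd hz1 hz2
  obtain ⟨hZ1, hL4, hLM⟩ := hx₂ Z (le_trans (le_max_right _ _) hZ)
  have hZx : x₁ ≤ Z := le_trans (le_max_left _ _) hZ
  obtain ⟨L, hLdef⟩ : ∃ L : ℝ, L = Real.log (16 * Z) := ⟨_, rfl⟩
  obtain ⟨M, hMdef⟩ : ∃ M : ℝ, M = 16 * (Z : ℝ) := ⟨_, rfl⟩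
  have hL1 : (1 : ℝ) ≤ L := by rw [hLdef]; linarith
  have hL0 : (0 : ℝ) < L := by linarith
  have hZ1' : (1 : ℝ) ≤ Z := by exact_mod_cast hZ1
  have hM1 : (1 : ℝ) ≤ M := by rw [hMdef]; linarith
  have hM0 : (0 : ℝ) < M := by linarith
  have hLp : (1 : ℝ) ≤ L ^ p := one_le_pow₀ hL1
  have hLp0 : (0 : ℝ) < L ^ p := by linarith
  have hLM' : 2 * L ^ p ≤ M := by rw [hLdef, hMdef]; exact hLM
  obtain ⟨Q, hQdef⟩ : ∃ Q : ℕ, Q = ⌊(16 * Z : ℝ) / Real.log (16 * Z) ^ p⌋₊ := ⟨_, rfl⟩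
  have hQ1 : (Q : ℝ) ≤ M / L ^ p := by
    rw [hQdef, hMdef, hLdef]
    exact Nat.floor_le (by rw [← hLdef]; positivity)
  have hQ2 : M / L ^ p < Q + 1 := by
    rw [hQdef, hMdef, hLdef]
    exact Nat.lt_floor_add_one _
  have h2Q : (2 : ℝ) ≤ M / L ^ p := by
    rw [le_div_iff₀ hLp0]
    exact hLM'
  have hQ3 : M / (2 * L ^ p) ≤ Q := by
    have : M / (2 * L ^ p) = M / L ^ p / 2 := by
      field_simp
    rw [this]
    linarith
  have hQ2' : 2 ≤ Q := by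
    rw [hQdef]
    refine Nat.le_floor ?_
    rw [← hLdef, ← hMdef]
    exact_mod_cast h2Q
  have hQ0 : (0 : ℝ) < Q := by
    have : (2 : ℝ) ≤ Q := by exact_mod_cast hQ2'
    linarith
  obtain ⟨P, hPdef⟩ : ∃ P : ℕ, P = ⌊L ^ p⌋₊ := ⟨_, rfl⟩
  have hP1 : (P : ℝ) ≤ L ^ p := by
    rw [hPdef]
    exact Nat.floor_le hLp0.le
  have hP2 : 1 ≤ P := by
    rw [hPdef]
    exact Nat.le_floor (by exact_mod_cast hLp)
  have hN : (((16 * Z) ^ 2 : ℕ) : ℝ) = M ^ 2 := by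
    rw [hMdef]
    push_cast
    ring
  have hPQ : P * Q ≤ (16 * Z) ^ 2 := by
    have : ((P * Q : ℕ) : ℝ) ≤ (((16 * Z) ^ 2 : ℕ) : ℝ) := by
      rw [hN]
      push_cast
      calc (P : ℝ) * Q ≤ L ^ p * (M / L ^ p) := by gcongr
        _ = M := by field_simp
        _ ≤ M ^ 2 := by nlinarith
    exact_mod_cast this
  have hcard : ((Maj p Z).card : ℝ) ≤ 8 * P * (((16 * Z) ^ 2 : ℕ) : ℝ) / Q := by
    refine h2.2 P Q ((16 * Z) ^ 2) (Maj p Z) hP2 hQ2' hPQ (filter_subset _ _) ?_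
    intro k hk
    obtain ⟨v, h, hv1, hv2, hv3⟩ := (mem_filter.1 hk).2
    refine ⟨v, h, hv1, ?_, ?_⟩
    · rw [hPdef]
      refine Nat.le_floor ?_
      rw [hLdef]
      exact hv2
    · rw [hQdef]
      exact hv3
  have hterm : ∀ k ∈ Maj p Z, ‖WP th a b' c Z d ((k : ℝ) / ((16 * Z) ^ 2 : ℕ)) -
      WP (lz z) a b' c Z d ((k : ℝ) / ((16 * Z) ^ 2 : ℕ))‖ ≤
      ((a * b' * c : ℕ) : ℝ) ^ 2 * M ^ 3 / L ^ (2 * p + 3) := by
    intro k hk
    obtain ⟨v, h, hv1, hv2, hv3⟩ := (mem_filter.1 hk).2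
    rw [← hQdef] at hv3
    rw [← hLdef] at hv2
    have hv1' : (1 : ℝ) ≤ v := by exact_mod_cast hv1
    have hη : |(k : ℝ) / ((16 * Z) ^ 2 : ℕ) - h / v| * (16 * Z) ≤ Real.log (16 * Z) ^ (p + 1) := by
      rw [← hLdef, ← hMdef]
      have h5 : (1 : ℝ) / (v * Q) ≤ 2 * L ^ p / M := by
        rw [div_le_div_iff₀ (by positivity) hM0]
        have h6 : M ≤ Q * (2 * L ^ p) := by
          rw [div_le_iff₀ (by positivity)] at hQ3
          exact hQ3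
        calc 1 * M ≤ Q * (2 * L ^ p) := by rw [one_mul]; exact h6
          _ = 2 * L ^ p * (1 * Q) := by ring
          _ ≤ 2 * L ^ p * (v * Q) := by gcongr
      calc |(k : ℝ) / ((16 * Z) ^ 2 : ℕ) - h / v| * M ≤ 2 * L ^ p / M * M := by
            refine mul_le_mul_of_nonneg_right (hv3.trans h5) hM0.le
        _ = 2 * L ^ p := by field_simp
        _ ≤ L ^ (p + 1) := by
            rw [pow_succ, mul_comm]
            refine mul_le_mul_of_nonneg_left ?_ hLp0.le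
            rw [hLdef]
            linarith
    have hvp : (v : ℝ) ≤ Real.log (16 * Z) ^ (p + 1) := by
      rw [← hLdef]
      exact hv2.trans (pow_le_pow_right₀ hL1 (by omega))
    have key := h1 a b' c Z v z h d ((k : ℝ) / ((16 * Z) ^ 2 : ℕ) - h / v) hZx ha hb hc hE hv1
      hD1 hD2 hD3 hvp hη hd hz1 hz2
    have e : (h : ℝ) / v + ((k : ℝ) / ((16 * Z) ^ 2 : ℕ) - h / v) =
        (k : ℝ) / ((16 * Z) ^ 2 : ℕ) := by ring
    rw [e, ← hLdef, ← hMdef] at key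
    exact key
  have habc : (0 : ℝ) < ((a * b' * c : ℕ) : ℝ) := by
    have : 0 < a * b' * c := by positivity
    exact_mod_cast this
  have hnn : ‖(1 / ((((16 * Z) ^ 2 : ℕ) : ℂ) * ((a * b' * c : ℕ) : ℂ)))‖ =
      1 / (M ^ 2 * ((a * b' * c : ℕ) : ℝ)) := by
    rw [norm_div, norm_one, norm_mul, Complex.norm_natCast, Complex.norm_natCast, hN]
  rw [norm_mul, hnn, ← hLdef, ← hMdef]
  have hsum : ‖∑ k ∈ Maj p Z, (WP th a b' c Z d ((k : ℝ) / ((16 * Z) ^ 2 : ℕ)) -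
      WP (lz z) a b' c Z d ((k : ℝ) / ((16 * Z) ^ 2 : ℕ)))‖ ≤
      16 * L ^ (2 * p) * M * (((a * b' * c : ℕ) : ℝ) ^ 2 * M ^ 3 / L ^ (2 * p + 3)) := by
    refine (norm_sum_le _ _).trans ((sum_le_sum hterm).trans ?_)
    rw [sum_const, nsmul_eq_mul]
    refine mul_le_mul_of_nonneg_right (hcard.trans ?_) (by positivity)
    rw [hN, div_le_iff₀ hQ0]
    have h6 : M ≤ Q * (2 * L ^ p) := by
      rw [div_le_iff₀ (by positivity)] at hQ3
      exact hQ3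
    calc 8 * (P : ℝ) * M ^ 2 ≤ 8 * L ^ p * M ^ 2 := by gcongr
      _ = 8 * L ^ p * M * M := by ring
      _ ≤ 8 * L ^ p * M * (Q * (2 * L ^ p)) := by gcongr
      _ = 16 * L ^ (2 * p) * M * Q := by rw [two_mul p, pow_add]; ring
  have hpos : (0 : ℝ) ≤ 1 / (M ^ 2 * ((a * b' * c : ℕ) : ℝ)) := by positivity
  refine (mul_le_mul_of_nonneg_left hsum hpos).trans ?_
  rw [div_mul_eq_mul_div, one_mul, div_le_div_iff₀ (by positivity) hL0]
  have h16 : (16 : ℝ) ≤ L ^ 2 := by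
    rw [hLdef]
    nlinarith
  calc 16 * L ^ (2 * p) * M * (((a * b' * c : ℕ) : ℝ) ^ 2 * M ^ 3 / L ^ (2 * p + 3)) * L
      = 16 * (((a * b' * c : ℕ) : ℝ) ^ 2 * M ^ 4) / L ^ 2 := by
        rw [pow_add]
        field_simp
    _ ≤ ((a * b' * c : ℕ) : ℝ) ^ 2 * M ^ 4 := by
        rw [div_le_iff₀ (by positivity)]
        have : (0 : ℝ) ≤ ((a * b' * c : ℕ) : ℝ) ^ 2 * M ^ 4 := by positivity
        nlinarith
    _ = ((a * b' * c : ℕ) : ℝ) * M ^ 2 * (M ^ 2 * ((a * b' * c : ℕ) : ℝ)) := by ring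

end Pool.Agent.Helper29.E3
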