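import Pool.Agent.Helper29.E3.St2

/-! # Module PWC: powers of character sums -/

set_option autoImplicit false

namespace Pool.Agent.Helper29.E3

open Finset ArithmeticFunction

theorem hPWC : StPWC := by
  intro r N b T hr hT hb
  induction r, hr using Nat.le_induction with
  | base =>
    refine ⟨b, fun m => ?_, fun q χ => ?_⟩
    · simpa using hb m
    · simp
  | succ r hr ih =>
    obtain ⟨B, hB, hS⟩ := ih
    refine ⟨fun m => ∑ p ∈ (Ioc 0 (N ^ r) ×ˢ Ioc 0 N).filter (fun p => p.1 * p.2 = m),
      B p.1 * b p.2, fun m => ?_, fun q χ => ?_⟩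
    · have hcard : (((Ioc 0 (N ^ r) ×ˢ Ioc 0 N).filter
          (fun p : ℕ × ℕ => p.1 * p.2 = m)).card : ℝ) ≤ (m.divisors.card : ℝ) := by
        have : ((Ioc 0 (N ^ r) ×ˢ Ioc 0 N).filter
            (fun p : ℕ × ℕ => p.1 * p.2 = m)).card ≤ m.divisors.card := by
          refine Finset.card_le_card_of_injOn (fun p => p.1) ?_ ?_
          · intro p hp
            have hp' := (mem_filter.1 hp).2
            have h5 := (mem_filter.1 hp).1
            rw [mem_product, mem_Ioc, mem_Ioc] at h5
            have hm : m ≠ 0 := by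
              rw [← hp']
              exact (Nat.mul_pos h5.1.1 h5.2.1).ne'
            exact Finset.mem_coe.2 (Nat.mem_divisors.2 ⟨⟨p.2, hp'.symm⟩, hm⟩)
          · intro p hp p' hp' he
            have h3 := (mem_filter.1 hp).2
            have h4 := (mem_filter.1 hp').2
            have h5 := (mem_filter.1 hp).1
            rw [mem_product, mem_Ioc, mem_Ioc] at h5
            have he' : p.1 = p'.1 := he
            have h6 : p.2 = p'.2 := by
              rw [← he'] at h4
              exact Nat.eq_of_mul_eq_mul_left h5.1.1 (h3.trans h4.symm)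
            exact Prod.ext he' h6
        exact_mod_cast this
      have hterm : ∀ p ∈ (Ioc 0 (N ^ r) ×ˢ Ioc 0 N).filter (fun p : ℕ × ℕ => p.1 * p.2 = m),
          ‖B p.1 * b p.2‖ ≤ T ^ (r + 1) * (m.divisors.card : ℝ) ^ (2 * r) := by
        intro p hp
        have hp' := (mem_filter.1 hp).2
        have h5 := (mem_filter.1 hp).1
        rw [mem_product, mem_Ioc, mem_Ioc] at h5
        have hm : m ≠ 0 := by
          rw [← hp']
          exact (Nat.mul_pos h5.1.1 h5.2.1).ne'
        have hd1 : p.1 ∣ m := ⟨p.2, hp'.symm⟩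
        have hd2 : p.2 ∣ m := ⟨p.1, by rw [mul_comm, hp']⟩
        have hc : ∀ d : ℕ, d ∣ m → (d.divisors.card : ℝ) ≤ (m.divisors.card : ℝ) := by
          intro d hd
          exact_mod_cast Finset.card_le_card (Nat.divisors_subset_of_dvd hm hd)
        have k1 : ‖B p.1‖ ≤ T ^ r * (m.divisors.card : ℝ) ^ (2 * r - 1) :=
          (hB p.1).trans (mul_le_mul_of_nonneg_left
            (pow_le_pow_left₀ (Nat.cast_nonneg _) (hc _ hd1) _) (by positivity))
        have k2 : ‖b p.2‖ ≤ T * (m.divisors.card : ℝ) :=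
          (hb p.2).trans (mul_le_mul_of_nonneg_left (hc _ hd2) hT)
        rw [norm_mul]
        calc ‖B p.1‖ * ‖b p.2‖ ≤ (T ^ r * (m.divisors.card : ℝ) ^ (2 * r - 1)) *
              (T * (m.divisors.card : ℝ)) :=
              mul_le_mul k1 k2 (norm_nonneg _) (by positivity)
          _ = T ^ (r + 1) * (m.divisors.card : ℝ) ^ (2 * r) := by
              obtain ⟨s, hs⟩ : ∃ s, 2 * r = s + 1 := ⟨2 * r - 1, by omega⟩
              rw [hs, Nat.add_sub_cancel, pow_succ, pow_succ]
              ring
      refine (norm_sum_le _ _).trans ((Finset.sum_le_card_nsmul _ _ _ hterm).trans ?_)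
      rw [nsmul_eq_mul]
      have e1 : 2 * (r + 1) - 1 = 2 * r + 1 := by omega
      rw [e1]
      calc (((Ioc 0 (N ^ r) ×ˢ Ioc 0 N).filter
            (fun p : ℕ × ℕ => p.1 * p.2 = m)).card : ℝ) *
            (T ^ (r + 1) * (m.divisors.card : ℝ) ^ (2 * r))
          ≤ (m.divisors.card : ℝ) * (T ^ (r + 1) * (m.divisors.card : ℝ) ^ (2 * r)) :=
            mul_le_mul_of_nonneg_right hcard (by positivity)
        _ = T ^ (r + 1) * (m.divisors.card : ℝ) ^ (2 * r + 1) := by ring
    · have hmaps : ∀ p ∈ (Ioc 0 (N ^ r) ×ˢ Ioc 0 N : Finset (ℕ × ℕ)),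
          p.1 * p.2 ∈ Ioc 0 (N ^ (r + 1)) := by
        intro p hp
        rw [mem_product, mem_Ioc, mem_Ioc] at hp
        rw [mem_Ioc]
        refine ⟨Nat.mul_pos hp.1.1 hp.2.1, ?_⟩
        rw [pow_succ]
        exact Nat.mul_le_mul hp.1.2 hp.2.2
      rw [pow_succ, hS q χ, Finset.sum_mul_sum, ← Finset.sum_product',
        ← Finset.sum_fiberwise_of_maps_to hmaps]
      refine Finset.sum_congr rfl fun m _ => ?_
      rw [Finset.sum_mul]
      refine Finset.sum_congr rfl fun p hp => ?_
      rw [mem_filter] at hp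
      rw [← hp.2, Nat.cast_mul, map_mul]
      ring

end Pool.Agent.Helper29.E3
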