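import Pool.Agent.Helper49.PC.StE

/-!
# Project E3 (MP_3923f3_nt): exponent `3 + ε` for small greatest common divisors

Part 1: minor arcs.  `M` is the length, `D` the modulus, all variables are at most `X = D M`;
project PC (`Pool.Agent.Helper49.PC`) treats `D (log M)^C ≤ M`, here `D ^ (N + 1) ≤ M ^ (2 N)`,
that is `M ≥ D ^ (1/2 + 1/(2N))`.
-/

set_option autoImplicit false

namespace Pool.Agent.Helper29.E3

open Finset ArithmeticFunction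
open Pool.Agent.Helper48.BK (ex th lz Vz Pz gs nd Apx AdN Sol thd)
open Pool.Agent.Helper49.PC
open scoped ComplexConjugate

/-! ### the type one sum in mean square -/

/-- GNP: sum over the points `(φ + i) / n`.  PROOF: `nd` (distance to the nearest integer) is even
and has period `1`, hence so is `gs X`.  Let `s = φ - round φ`, `|s| = nd φ ≤ 1/2`.  The points
`(φ + i) / n`, `i < n`, are modulo `1` the points `(s + i) / n`, `i < n` (shift of a complete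
residue system modulo `n`).  `i = 0` gives `gs X (s / n) = gs X (nd φ / n)`.  Let `1 ≤ i < n`, so
`n ≥ 2`.  If `2 i ≤ n` then `nd ((s + i) / n) ≥ min ((i - 1/2) / n, 1 - (i + 1/2) / n) ≥ i / (2 n)`
(`1.5 i + 0.5 ≤ n`).  If `2 i > n` then with `i' = n - i` the point is `-(i' - s) / n` modulo `1`
and `nd ≥ i' / (2 n)`.  `gs X t ≤ 1 / nd t` if `nd t > 0`.  So the terms `i ≠ 0` contribute at most
`2 ∑_{r ≥ 1} (2 n / r)² ≤ 2 · 4 n² · 2 = 16 n²` (`∑ 1/r² ≤ 2`).  (`n = 1`: only `i = 0`.) -/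
def StGNP : Prop := ∀ (n : ℕ) (φ X : ℝ), 1 ≤ n → 0 ≤ X →
  ∑ i ∈ range n, gs X ((φ + i) / n) ^ 2 ≤ gs X (nd φ / n) ^ 2 + 16 * (n : ℝ) ^ 2

/-- GHP: the points `D h / q`.  PROOF: `g = gcd(D, q)`, `D = g D'`, `q = g q'`,
`D h / q = D' h / q'`, which depends modulo `1` only on `h mod q'`; every residue class modulo `q'`
contains `g` of the numbers `h < q = g q'`, and `h ↦ D' h` permutes the residues modulo `q'`. -/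
def StGHP : Prop := ∀ (D q : ℕ) (F : ℝ → ℝ), 1 ≤ D → 1 ≤ q → (∀ t, F (t + 1) = F t) →
  ∑ h ∈ range q, F ((D : ℝ) * h / q) =
    (Nat.gcd D q : ℝ) * ∑ a ∈ range (q / Nat.gcd D q), F ((a : ℝ) / (q / Nat.gcd D q : ℕ))

/-- GQS: multiples of `θ`.  PROOF: for `q ≤ R`: `q < v`, so `v ∤ q h`, `nd (q h / v) ≥ 1 / v` and
`|q θ - q h / v| ≤ q / v² ≤ 1 / (2 v)`; hence `nd (q θ) ≥ 1 / (2 v)` and `gs .. ≤ 2 v`; these terms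
give `≤ 4 R v²`.  For `q > R`: `gs (M / q) t ≤ M / q` and `∑_{q > R} 1 / q² ≤ 1 / R`. -/
def StGQS : Prop := ∀ (M Q R v : ℕ) (h : ℤ) (θ : ℝ), 1 ≤ R → 2 * R ≤ v → Apx θ h v →
  ∑ q ∈ Icc 1 Q, gs ((M : ℝ) / q) (q * θ) ^ 2 ≤ 4 * R * (v : ℝ) ^ 2 + (M : ℝ) ^ 2 / R

/-- GON: the sum of `min (X / k, 1 / ‖k β‖)` near a rational number.  PROOF: put
`δ = β - h / q`, `|δ| ≤ 1 / (q Q) ≤ 1 / 2`, and let `k ≤ J ≤ Q / 2`, so `|k δ| ≤ 1 / (2 q)`.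
(1) `q ∣ k`: `k β - k δ` is an integer, `|k δ| ≤ 1/2`, so `nd (k β) = k |δ| = k nd δ` and
`gs (X / k) (k β) = (1 / k) gs X δ` (the conditions `(X / k) (k nd δ) ≤ 1` and `X nd δ ≤ 1` are the
same); the sum over `k = q t ≤ J` is at most `gs X δ (1 + log J) / q`.
(2) `q ∤ k`: `nd (k h / q) ≥ 1 / q`, so `nd (k β) ≥ nd (k h / q) - 1 / (2 q) ≥ nd (k h / q) / 2` and
`gs (X / k) (k β) ≤ 1 / nd (k β) ≤ 2 / nd (k h / q) = 2 gs (2 q) (k (h / q))` (as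
`2 q nd (k h / q) ≥ 2 > 1`).  StGeo2 (`Pool.Agent.Helper48.BK.hGeo2`) for `α = h / q`, `N = 2 q`
(`Apx (h / q) h q`) bounds the sum over `k ≤ J` by `2 C (J / q + 1) (2 q + q (1 + log q))
≤ 6 C (J + q) (1 + log q) ≤ 12 C Q (1 + log Q)`. -/
def StGON : Prop := ∃ C : ℝ, 0 < C ∧ ∀ (J q Q : ℕ) (h : ℤ) (X β : ℝ), 1 ≤ q → q ≤ Q → 1 ≤ J →
  2 * J ≤ Q → IsCoprime h (q : ℤ) → |β - h / q| ≤ 1 / (q * Q) → 0 ≤ X →
  ∑ k ∈ Icc 1 J, gs (X / k) (k * β) ≤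
    (1 + Real.log J) / q * gs X (β - h / q) + C * Q * (1 + Real.log Q)

/-- PTQ: the points near fractions of denominator `q`.  PROOF: for fixed `h`,
`(θ + j) / D - h / q = ((θ - D h / q) + j) / D`, and GNP (`n = D`, `X = D M`) gives
`∑_{j < D} .. ≤ gs (D M) (nd (θ - D h / q) / D)² + 16 D²`.  For every real `t`:
`gs (D M) (nd t / D) = D gs M t`, because `nd (nd t / D) = nd t / D` (`0 ≤ nd t ≤ 1/2`, `D ≥ 1`) and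
the conditions `D M (nd t / D) ≤ 1` and `M nd t ≤ 1` are the same.  With `g = gcd(D, q)`,
`q' = q / g`, GHP for `F t = gs M (θ - t)²` gives
`∑_{h < q} gs M (θ - D h / q)² = g ∑_{a < q'} gs M (θ - a / q')²`, and `gs` is even, so
`gs M (θ - a / q') = gs M ((-(q' θ) + a) / q')`; by GNP (`n = q'`, `φ = -(q' θ)`, `X = M`) the sum
over `a` is at most `gs M (nd (q' θ) / q')² + 16 q'² = q'² (gs (M / q') (q' θ)² + 16)` (the same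
identity with `q'` in place of `D`). -/
def StPTQ : Prop := ∀ (M D q : ℕ) (θ : ℝ), 1 ≤ D → 1 ≤ q →
  ∑ h ∈ range q, ∑ j ∈ range D, gs ((D * M : ℕ) : ℝ) ((θ + j) / D - (h : ℝ) / q) ^ 2 ≤
    (D : ℝ) ^ 2 * (Nat.gcd D q : ℝ) * ((q / Nat.gcd D q : ℕ) : ℝ) ^ 2 *
      (gs ((M : ℝ) / (q / Nat.gcd D q : ℕ)) ((q / Nat.gcd D q : ℕ) * θ) ^ 2 + 16) +
    16 * q * (D : ℝ) ^ 2

/-- SMQ: summation over `q`.  PROOF: `q = g q'`, so the term is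
`D² g⁻¹ G(q') + 16 D² g⁻¹ + 16 D² / q`, `G(q') = gs (M / q') (q' θ)² ≥ 0`; the last two are at most
`32 D²`.  `q ↦ (g, q')` is injective with `1 ≤ g ≤ D` (`g ∣ D`) and `1 ≤ q' ≤ Q`, so
`∑_{q ≤ Q} g⁻¹ G(q') ≤ ∑_{g ≤ D} g⁻¹ ∑_{q' ≤ Q} G(q') ≤ (1 + log D) ∑_{q' ≤ Q} G(q')`. -/
def StSMQ : Prop := ∀ (M D Q : ℕ) (θ : ℝ), 1 ≤ D →
  ∑ q ∈ Icc 1 Q, 1 / (q : ℝ) ^ 2 *
    ((D : ℝ) ^ 2 * (Nat.gcd D q : ℝ) * ((q / Nat.gcd D q : ℕ) : ℝ) ^ 2 *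
      (gs ((M : ℝ) / (q / Nat.gcd D q : ℕ)) ((q / Nat.gcd D q : ℕ) * θ) ^ 2 + 16) +
    16 * q * (D : ℝ) ^ 2) ≤
    (D : ℝ) ^ 2 * (1 + Real.log D) * ∑ q ∈ Icc 1 Q, gs ((M : ℝ) / q) (q * θ) ^ 2 +
      32 * (D : ℝ) ^ 2 * Q

/-- TS1: the type one sum in mean square.  PROOF.  `X = D M`, `Q = 2 J`, `β_j = (θ + j) / D`.  For
every `j < D` let `q_j ≤ Q`, `h_j` be given by Dirichlet's theorem (StMEA, first part):
`|β_j - h_j / q_j| ≤ 1 / (q_j Q)`, coprime.  By GON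
`A_j := ∑_{k ≤ J} gs (X / k) (k β_j) ≤ (1 + log J) gs X (β_j - h_j / q_j) / q_j + C Q (1 + log Q)`,
`A_j² ≤ 2 (1 + log J)² gs X (β_j - h_j / q_j)² / q_j² + 2 C² Q² (1 + log Q)²`.
`gs X` has period `1`, so `h_j` can be reduced modulo `q_j`, and
`∑_j gs X (β_j - h_j / q_j)² / q_j² ≤ ∑_{q ≤ Q} q⁻² ∑_{h < q} ∑_{j < D} gs X (β_j - h / q)²`
`≤ D² (1 + log D) ∑_{q ≤ Q} gs (M / q) (q θ)² + 32 D² Q` (PTQ, SMQ), and GQS.  In total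
`∑_j A_j² ≤ 2 (1 + log J)² ((1 + log D) (4 D² R v² + (D M)² / R) + 64 D² J) + 8 C² D J² (1 + log Q)²`
and all logarithms are at most `5 log M` (`J ≤ M⁴`, `D ≤ M²`, `log M ≥ 1`). -/
def StTS1 : Prop := ∃ C : ℝ, 0 < C ∧ ∀ (M D v J R : ℕ) (h : ℤ) (θ : ℝ), 3 ≤ M → 1 ≤ D →
  D ≤ M ^ 2 → 1 ≤ J → J ≤ M ^ 4 → 1 ≤ R → 2 * R ≤ v → Apx θ h v →
  ∑ j ∈ range D, (∑ k ∈ Icc 1 J, gs (((D * M : ℕ) : ℝ) / k) (k * ((θ + j) / D))) ^ 2 ≤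
    C * Real.log M ^ 3 * ((D : ℝ) ^ 2 * R * (v : ℝ) ^ 2 + ((D : ℝ) * M) ^ 2 / R +
      (D : ℝ) ^ 2 * J + D * (J : ℝ) ^ 2)

/-- TCL: from residue classes to the points `(θ + j) / D`.  PROOF: put
`F n = ∑_{k ≤ J, k ∣ n} c k` for `n ≤ y`.  For every `l` the inner double sum is
`∑_{n ≤ y, n ≡ l mod D} F n ex (n (θ / D))` (`n = k m`).  Extend the sum over `l` to all classes;
by StPV it becomes `NN F y D θ = ∑_{j < D} ‖Sc F y ((θ + j) / D)‖²`, and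
`Sc F y β = ∑_{k ≤ J} c k ∑_{m ≤ y / k} ex (m (k β))`, of absolute value at most
`∑_k T gs (y / k) (k β) ≤ T ∑_k gs (D M / k) (k β)` (StGeo1, `hGeo1` of project BK: first and second
part; `⌊y / k⌋ ≤ D M / k`). -/
def StTCL : Prop := ∀ (M D J y : ℕ) (θ T : ℝ) (c : ℕ → ℝ), 1 ≤ D → y ≤ D * M → 0 ≤ T →
  (∀ k ≤ J, |c k| ≤ T) →
  D * ∑ l ∈ Un D, ‖∑ k ∈ Ioc 0 J, ∑ m ∈ Ioc 0 (y / k),
      if k * m ≡ l [MOD D] then ((c k * (1 : ℝ) : ℝ) : ℂ) * ex (k * m * (θ / D)) else 0‖ ^ 2 ≤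
    T ^ 2 * ∑ j ∈ range D, (∑ k ∈ Icc 1 J, gs (((D * M : ℕ) : ℝ) / k) (k * ((θ + j) / D))) ^ 2

/-! ### minor arcs for the primes -/

/-- MBL: the bilinear part.  PROOF: adapt `block_MIL`, `dec_MIL` and the part `b4` of
`Pool.Agent.Helper49.PC.M_MIL`: decompose `k` in the blocks `(U 2^i, 2 U 2^i]` and `m` in the blocks
`(V 2^j, 2 V 2^j]`, `V = D W`, `i, j < n` with `2^n > D M`, `n ≤ 9 L` (`log (D M) ≤ 3 L`,
`L = log M`); Cauchy-Schwarz for the sum over the `n²` blocks.  A block with `K K' > D M` is empty;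
otherwise `K ≤ D M / K' ≤ M / W` and `K ≥ U`, and TU2 with this `k` gives for the block
`≤ C (2 A K) (A D M / K) (D K + D M / v + D M / K + D v) (1 + log v)
≤ 4 C A² (D M)² (1 / W + 1 / v + 1 / U + v / M) L`. -/
def StMBL : Prop := ∃ C : ℝ, 0 < C ∧ ∀ (M D v U W y : ℕ) (h : ℤ) (θ : ℝ) (f g : ℕ → ℝ) (A : ℝ),
  3 ≤ M → 1 ≤ D → D ≤ M ^ 2 → 1 ≤ U → 1 ≤ W → v ≤ M → y ≤ D * M → Apx θ h v → 0 ≤ A →
  (∀ n ≤ U, f n = 0) → (∀ n ≤ D * W, g n = 0) →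
  (∀ N ≤ 2 * (D * M), ∑ n ∈ Ioc 0 N, f n ^ 2 ≤ A * N) →
  (∀ N ≤ 2 * (D * M), ∑ n ∈ Ioc 0 N, g n ^ 2 ≤ A * N) →
  D * ∑ l ∈ Un D, ‖∑ k ∈ Ioc 0 y, ∑ m ∈ Ioc 0 (y / k),
      if k * m ≡ l [MOD D] then ((f k * g m : ℝ) : ℂ) * ex (k * m * (θ / D)) else 0‖ ^ 2 ≤
    C * A ^ 2 * ((D : ℝ) * M) ^ 2 * Real.log M ^ 5 * (1 / v + 1 / U + 1 / W + v / M)

/-- MILX: the von Mangoldt function in the unit classes.  PROOF: adapt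
`Pool.Agent.Helper49.PC.M_MIL`.  Vaughan's identity with two parameters `V = D W` (for `Λ`) and `U`
(for `μ`): `Λ = lo Λ V + lo mob U * log - (lo Λ V * lo mob U) * zet + hi Λ V * (hi mob U * zet)`
(`Pool.Agent.Helper2.ring_identity`, exactly as `Pool.Agent.Helper2.vaughan`).  `L = log M`,
`log (D M) ≤ 3 L`.
(i) `D ∑_l (∑_{n ≤ V, n ≡ l} Λ n)² ≤ D (V 3 L)² = 9 L² (D M)² D W² / M²`.
(ii) `lo mob U * log`: TU1 with `J = U ≤ M`, `f = log`, `T = 1`: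
`≤ C (3 L)² L⁴ D² (M / v + U + v)² ≤ C' L⁶ (D M)² (1 / v + U² / M² + v / M)`.
(iii) `(lo Λ V * lo mob U) * zet`: the coefficients are `0` for `k > J := U V = U D W ≤ M⁴` and at
most `log k ≤ 4 L` in absolute value (as in `abs_lo_mul_lo_le`, with two parameters); TCL and TS1
with `T = 4 L`: `≤ C L⁵ (D M)² (R v² / M² + 1 / R + U D W / M² + U² D W² / M²)`.
(iv) `hi Λ V * (hi mob U * zet)`: MBL with `f = hi mob U * zet` (variable `k`), `g = hi Λ V`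
(variable `m`) and `A = 125 L³` (`hi_mob_zet_sq_le`, `hi_vonMangoldt_sq_le`,
`log (2 D M) ≤ 4 L`). -/
def StMILX : Prop := ∃ (C : ℝ) (c : ℕ), 0 < C ∧ ∀ (M D v U W R y : ℕ) (h : ℤ) (θ : ℝ),
  3 ≤ M → 1 ≤ D → D ≤ M ^ 2 → 1 ≤ U → U ≤ M → 1 ≤ W → W ≤ M → 1 ≤ R → 2 * R ≤ v → v ≤ M →
  y ≤ D * M → Apx θ h v →
  D * ∑ l ∈ Un D, ‖∑ n ∈ (Ioc 0 y).filter (fun n => n ≡ l [MOD D]),
      ((Λ n : ℝ) : ℂ) * ex (n * (θ / D))‖ ^ 2 ≤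
    C * ((D : ℝ) * M) ^ 2 * Real.log M ^ c *
      (1 / v + 1 / U + 1 / W + 1 / R + v / M + (R : ℝ) * (v : ℝ) ^ 2 / M ^ 2 +
        (U : ℝ) ^ 2 * (W : ℝ) ^ 2 * D / M ^ 2)

/-- MITX: minor arcs for the primes.  PROOF: as `M_MIT`: RED with `q = D` (error
`C X^{3/2} (3 L)³`) and Minkowski; the coprime part is, by PV, `D ∑_{l ∈ Un D}`, the window sum is
the difference of two sums over `(0, y]`; MILX with `U = W = R = ⌈L^u⌉`, `u = E + c + 3`,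
`p = 3 u + 5`: `1/v, 1/U, 1/W, 1/R, v/M ≤ L^{-u}`, `R v² / M² ≤ 2 L^{u - 2 p}`, and
`U² W² D / M² ≤ 16 L^{4 u} D / M² ≤ L^{-u}` for large `M`, because
`(D L^{6 u})^{N+1} ≤ M^{2 N} L^{6 u (N + 1)} ≤ M^{2 (N + 1)}`. -/
def StMITX : Prop := ∀ E : ℕ, ∃ p : ℕ, ∀ N : ℕ, ∃ x₀ : ℕ, ∀ (M D v w₀ w₁ : ℕ) (h : ℤ) (θ : ℝ),
  x₀ ≤ M → 1 ≤ D → D ^ (N + 1) ≤ M ^ (2 * N) → Apx θ h v → Real.log M ^ p ≤ v →
  v * Real.log M ^ p ≤ M → w₁ ≤ D * M →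
  NN (fun n => ((cut th w₀ w₁ n : ℝ) : ℂ)) (D * M) D θ ≤ ((D : ℝ) * M) ^ 2 / Real.log M ^ E

/-! ### the model -/

/-- AZ2X: the model in the unit classes of a large modulus, `q ≤ X^{3/4}`.  PROOF: adapt
`M_AZ2` (case `q² ≤ X`): with `r = ⌊log X / (16 log z)⌋ - 1` the number of sets `T` with
`|T| ≤ r + 1` is at most `(z + 1)^{r+1} ≤ X^{1/8}`, and `X^{1/8} ≤ (X / q) / log^{A+3} X` since
`X / q ≥ X^{1/4}`; the rest is unchanged. -/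
def StAZ2X : Prop := ∀ A B : ℕ, ∃ x₀ : ℕ, ∀ X y z q u : ℕ, x₀ ≤ X → y ≤ X →
  Real.log X ^ (A + 3) ≤ z → (z : ℝ) ≤ Real.log X ^ B → 1 ≤ q → q ^ 4 ≤ X ^ 3 →
  Nat.Coprime u q →
  |∑ n ∈ (Ioc 0 y).filter (fun n => n ≡ u [MOD q]), lz z n - (y : ℝ) / Nat.totient q| ≤
    (X : ℝ) / q / Real.log X ^ A

/-- MIZX: minor arcs for the model.  PROOF: exactly `M_MIZ`; the hypothesis `D ≤ M` is used there
only in `t4 : log (D M) ≤ 2 L`; with `D ≤ M²` it is `log (D M) ≤ 3 L` (change the constant `32 C₂`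
to `108 C₂`). -/
def StMIZX : Prop := ∀ E : ℕ, ∃ p : ℕ, ∀ B : ℕ, ∃ x₀ : ℕ, ∀ (M D v z w₀ w₁ : ℕ) (h : ℤ) (θ : ℝ),
  x₀ ≤ M → 1 ≤ D → D ≤ M ^ 2 → Apx θ h v → Real.log M ^ p ≤ v → v * Real.log M ^ p ≤ M →
  w₁ ≤ D * M → Real.log M ^ p ≤ z → (z : ℝ) ≤ Real.log M ^ B →
  NN (fun n => ((cut (lz z) w₀ w₁ n : ℝ) : ℂ)) (D * M) D θ ≤
    ((D : ℝ) * M) ^ 2 / Real.log M ^ E

end Pool.Agent.Helper29.E3
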