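import Pool.Agent.Helper29.E3.St1

/-!
# Project E3, part 2: mean squares of `∑ Λ(n) χ(n)` over the characters modulo `q`, `q ≤ X^{2/3 - ε}`
-/

set_option autoImplicit false

namespace Pool.Agent.Helper29.E3

open Finset ArithmeticFunction
open Pool.Agent.Helper48.BK (ex th lz Vz Pz gs nd Apx AdN Sol thd)
open Pool.Agent.Helper49.PC
open scoped ComplexConjugate

/-- the constant function `1` on positive integers -/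
def one1 (n : ℕ) : ℝ := if n = 0 then 0 else 1

/-- GBD: bound for Gauss sums.  PROOF: let `δ = gcd(i, q)`, `q' = q / δ`.  By GUN
`|Gs χ (u i)| = |Gs χ i|` for all `u` coprime to `q`, and the `u i mod q` take `φ(q')` different
values (all `δ w`, `w` a unit modulo `q'`; compare `key_GSU` in `Pool.Agent.Helper49.PC.M_GSU`), so by
Parseval (GPV, with `D = q`, `v = 1`, `𝓖 = {χ}`) `φ(q') |Gs χ i|² ≤ q / φ(q)`, and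
`φ(q) ≤ δ φ(q')` (`q = δ q'`) gives `φ(q)² |Gs χ i|² ≤ q φ(q) / φ(q') ≤ q δ`. -/
def StGBD : Prop := ∀ (q : ℕ) [NeZero q] (χ : DirichletCharacter ℂ q) (i : ℤ),
  (Nat.totient q : ℝ) ^ 2 * ‖Gs χ i‖ ^ 2 ≤ q * (Int.gcd i q : ℝ)

/-- PVC: a Pólya-Vinogradov inequality for all nonprincipal characters.  PROOF: let
`G i = φ(q) conj (Gs χ i) = ∑_{x mod q} χ(x) ex (-(i x / q))`; by orthogonality on `Z/q` (StORT)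
`χ(n) = (1 / q) ∑_{i < q} G i ex (i n / q)`.  `G 0 = ∑ χ(x) = 0` as `χ ≠ 1`, and
`|G i|² ≤ q gcd(i, q)` (GBD).
By StGeo1 (`hGeo1` of project BK) `|∑_{n ∈ Ioc u w} ex (n (i / q))| ≤ 1 / nd (i / q)`.  So
`|∑ χ(n)| ≤ (1 / q) ∑_{0 < i < q} √(q gcd(i, q)) / nd (i / q)`.  Group by `δ = gcd(i, q)`, a divisor
of `q`, `δ < q`, `i = δ i'`, `0 < i' < q' = q / δ` (drop the coprimality):
`∑_{0 < i' < q'} 1 / nd (i' / q') ≤ 2 ∑_{i' ≤ q' / 2} q' / i' ≤ 2 q' (1 + log q)`.  Total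
`(1 / q) √q ∑_{δ ∣ q} √δ 2 (q / δ) (1 + log q) ≤ 2 √q τ(q) (1 + log q)`. -/
def StPVC : Prop := ∀ (q : ℕ) [NeZero q] (χ : DirichletCharacter ℂ q) (u w : ℕ), χ ≠ 1 →
  ‖∑ n ∈ Ioc u w, χ (n : ZMod q)‖ ≤ 2 * √(q : ℝ) * (q.divisors.card : ℝ) * (1 + Real.log q)

/-- PWC: powers of character sums.  PROOF: induction on `r`.  `r = 1`: `B = b` (`B 0 = 0`).  For
`r + 1` put `B' m = ∑_{k l = m, 1 ≤ k ≤ N^r, 1 ≤ l ≤ N} B k b l`: at most `τ(m)` terms, each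
`≤ T^(r+1) τ(m)^(2 r - 1) τ(m)` (`τ(k), τ(l) ≤ τ(m)`), so `‖B' m‖ ≤ T^(r+1) τ(m)^(2 r + 1)`, and
`(∑_{m ≤ N^r} B m χ(m)) (∑_{n ≤ N} b n χ(n)) = ∑_{m ≤ N^(r+1)} B' m χ(m)` (compare `sq_eq_FOU`). -/
def StPWC : Prop := ∀ (r N : ℕ) (b : ℕ → ℂ) (T : ℝ), 1 ≤ r → 0 ≤ T →
  (∀ n, ‖b n‖ ≤ T * (n.divisors.card : ℝ)) →
  ∃ B : ℕ → ℂ, (∀ m, ‖B m‖ ≤ T ^ r * (m.divisors.card : ℝ) ^ (2 * r - 1)) ∧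
    ∀ (q : ℕ) (χ : DirichletCharacter ℂ q),
      (∑ n ∈ Ioc 0 N, b n * χ (n : ZMod q)) ^ r = ∑ m ∈ Ioc 0 (N ^ r), B m * χ (m : ZMod q)

/-- MOM: the moment of order `2 r`.  PROOF: PWC, then MSQ with `u = 0` and length `N^r`, and DVK
with exponent `2 (2 r - 1)`; `1 + log (N^r) ≤ r (1 + log N)` for `N ≥ 1`.  For `N = 0` both sides
are `0`. -/
def StMOM : Prop := ∀ r : ℕ, 1 ≤ r → ∃ (C : ℝ) (c : ℕ), 0 < C ∧ ∀ (q : ℕ) [NeZero q]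
  (b : ℕ → ℂ) (T : ℝ) (N : ℕ), 0 ≤ T → (∀ n, ‖b n‖ ≤ T * (n.divisors.card : ℝ)) →
  ∑ χ : DirichletCharacter ℂ q, ‖∑ n ∈ Ioc 0 N, b n * χ (n : ZMod q)‖ ^ (2 * r) ≤
    C * T ^ (2 * r) * ((N : ℝ) ^ r + q) * (N : ℝ) ^ r * (1 + Real.log N) ^ c

/-- HLD: Hölder's inequality without roots.  PROOF: Cauchy-Schwarz
`(∑ S A B)² ≤ (∑ A²) (∑ S² B²)`; take the power `r`.  With the weights `S²`: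
`(∑ S² B²)^r ≤ (∑ S²)^(r-1) ∑ S² B^(2 r)` (convexity of `t^r`; `inner_le_Lp_mul_Lq` or
`Real.inner_le_nnorm_mul_nnorm`, or `Real.pow_arith_mean_le_arith_mean_pow` after dividing by
`∑ S²`; if `∑ S² = 0` all `S i = 0`), and `S² ≤ V²`, `∑ S² ≤ Y`. -/
def StHLD : Prop := ∀ (ι : Type) (s : Finset ι) (S A B : ι → ℝ) (r : ℕ) (V Y : ℝ), 1 ≤ r →
  0 ≤ V → (∀ i ∈ s, 0 ≤ S i ∧ S i ≤ V) → (∀ i ∈ s, 0 ≤ A i) → (∀ i ∈ s, 0 ≤ B i) →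
  ∑ i ∈ s, S i ^ 2 ≤ Y →
  (∑ i ∈ s, S i * (A i * B i)) ^ (2 * r) ≤
    (∑ i ∈ s, A i ^ 2) ^ r * (Y ^ (r - 1) * (V ^ 2 * ∑ i ∈ s, B i ^ (2 * r)))

/-- BDG: decomposition of the bilinear sum in pieces.  PROOF: this is `M_BDC` with the bound of the
pieces as a hypothesis: `K_i = (1 + δ)^i`, `i < J`, `J ≤ 2 (1 + log X) / δ`,
`A_i = ∑_{K_i < k ≤ K_{i+1}} α k χ(k)`, `B_i = ∑_{w₀ < l K_i, l K_{i+1} ≤ w₁} β l χ(l)`; the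
hypothesis is applied with `y₀ = w₀ / K_i`, `y₁ = w₁ / K_{i+1}`; the rest is bounded by LEF. -/
def StBDG : Prop := ∀ (q : ℕ) [NeZero q] (X w₀ w₁ : ℕ) (α β : ℕ → ℝ) (T δ Y P : ℝ)
  (𝓖 : Finset (DirichletCharacter ℂ q)) (S : DirichletCharacter ℂ q → ℝ), 3 ≤ X → 0 ≤ T →
  (∀ n, |α n| ≤ T * (n.divisors.card : ℝ)) → (∀ n, |β n| ≤ T * (n.divisors.card : ℝ)) →
  α 1 = 0 → 0 < δ → δ ≤ 1 → w₀ ≤ w₁ → w₁ ≤ X → (∀ χ ∈ 𝓖, 0 ≤ S χ) →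
  ∑ χ ∈ 𝓖, S χ ^ 2 ≤ Y → 0 ≤ P →
  (∀ K K' y₀ y₁ : ℝ, 1 ≤ K → K ≤ K' → K' ≤ 2 * K → y₁ * K' ≤ X →
    ∑ χ ∈ 𝓖, S χ *
      (‖∑ k ∈ (Ioc 0 X).filter (fun k : ℕ => K < (k : ℝ) ∧ (k : ℝ) ≤ K'),
        ((α k : ℝ) : ℂ) * χ (k : ZMod q)‖ *
      ‖∑ l ∈ (Ioc 0 X).filter (fun l : ℕ => y₀ < (l : ℝ) ∧ (l : ℝ) ≤ y₁),
        ((β l : ℝ) : ℂ) * χ (l : ZMod q)‖) ≤ P) →
  ∑ χ ∈ 𝓖, S χ * ‖Bil χ α β X w₀ w₁‖ ≤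
    2 * (1 + Real.log X) / δ * P +
      √Y * √(2 * (δ * X + q + q) * T ^ 4 * X * (1 + Real.log X) ^ 63)

/-- PC1: pieces with a smooth variable.  PROOF: the `l` with `1 ≤ l ≤ X`, `y₀ < l ≤ y₁` form an
interval `Ioc u w`, so by PVC the second factor is at most `2 √q τ(q) (1 + log q)`.  The first
factor: `α k = 0` for `k > G`, so MSQ (`u = 0`, length `G`, coefficients restricted to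
`K < k ≤ K'`) and DVK (exponent 2) give `∑_χ ‖A‖² ≤ (G + q) T² G (1 + log X)³`
`≤ T² (G + q)² (1 + log X)⁴`.  Cauchy-Schwarz with `∑ S² ≤ Y`. -/
def StPC1 : Prop := ∀ (q : ℕ) [NeZero q] (X G : ℕ) (α : ℕ → ℝ) (T K K' y₀ y₁ Y : ℝ)
  (𝓖 : Finset (DirichletCharacter ℂ q)) (S : DirichletCharacter ℂ q → ℝ), 3 ≤ X → G ≤ X →
  0 ≤ T → (∀ n, |α n| ≤ T * (n.divisors.card : ℝ)) → (∀ n, G < n → α n = 0) →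
  (∀ χ ∈ 𝓖, χ ≠ 1 ∧ 0 ≤ S χ) → ∑ χ ∈ 𝓖, S χ ^ 2 ≤ Y →
  ∑ χ ∈ 𝓖, S χ *
    (‖∑ k ∈ (Ioc 0 X).filter (fun k : ℕ => K < (k : ℝ) ∧ (k : ℝ) ≤ K'),
      ((α k : ℝ) : ℂ) * χ (k : ZMod q)‖ *
    ‖∑ l ∈ (Ioc 0 X).filter (fun l : ℕ => y₀ < (l : ℝ) ∧ (l : ℝ) ≤ y₁),
      ((one1 l : ℝ) : ℂ) * χ (l : ZMod q)‖) ≤
    √Y * (T * (G + q) * (1 + Real.log X) ^ 2) *
      (2 * √(q : ℝ) * (q.divisors.card : ℝ) * (1 + Real.log q))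

/-- PC2: pieces of the bilinear sum, `α` supported on `k > V ≥ q` and `β` on `l > U`,
`U^r ≥ q`.  PROOF: let `A(χ)`, `B(χ)` be the two sums.  If `A` is not identically `0` then
`K' > V ≥ q`; if `B` is not identically `0` then `y₁ > U`, and `N := ⌊X / K'⌋ ≥ U` (as
`y₁ ≤ X / K'`), `N^r ≥ q`; `K' ≤ X` as `N ≥ 1`.  With `N₁ = ⌊K'⌋` (`N₁ ≥ q`):
`∑_χ ‖A‖² ≤ (N₁ + q) T² ∑_{k ≤ N₁} τ(k)² ≤ 2 K'² T² (1 + log X)³` (MSQ with `u = 0`, coefficients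
restricted to `K < k ≤ K'`; DVK with exponent 2), and by MOM
`∑_χ ‖B‖^(2 r) ≤ C T^(2 r) 2 N^(2 r) (1 + log X)^c` (coefficients restricted to `y₀ < l ≤ y₁`; all
these `l` are `≤ N`).  HLD, and `K' N ≤ X`. -/
def StPC2 : Prop := ∀ r : ℕ, 1 ≤ r → ∃ (C : ℝ) (c : ℕ), 0 < C ∧ ∀ (q : ℕ) [NeZero q]
  (X U V : ℕ) (α β : ℕ → ℝ) (T K K' y₀ y₁ W Y : ℝ) (𝓖 : Finset (DirichletCharacter ℂ q))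
  (S : DirichletCharacter ℂ q → ℝ),
  3 ≤ X → q ≤ V → q ≤ U ^ r → 0 ≤ T → Cf T V α → Cf T U β → 1 ≤ K → K ≤ K' → K' ≤ 2 * K →
  y₁ * K' ≤ X → 0 ≤ W → (∀ χ ∈ 𝓖, 0 ≤ S χ ∧ S χ ≤ W) → ∑ χ ∈ 𝓖, S χ ^ 2 ≤ Y →
  (∑ χ ∈ 𝓖, S χ *
    (‖∑ k ∈ (Ioc 0 X).filter (fun k : ℕ => K < (k : ℝ) ∧ (k : ℝ) ≤ K'),
      ((α k : ℝ) : ℂ) * χ (k : ZMod q)‖ *
    ‖∑ l ∈ (Ioc 0 X).filter (fun l : ℕ => y₀ < (l : ℝ) ∧ (l : ℝ) ≤ y₁),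
      ((β l : ℝ) : ℂ) * χ (l : ZMod q)‖)) ^ (2 * r) ≤
    C * T ^ (4 * r) * (X : ℝ) ^ (2 * r) * (1 + Real.log X) ^ c * (Y ^ (r - 1) * W ^ 2)

/-- VACX: Vaughan's identity for `Psi` with two parameters.  PROOF: adapt `M_VAC`; identity as in
MILX (`lo Λ V`, `lo mob U`).  The term `lo Λ V` vanishes on `(w₀, w₁]` (`V ≤ w₀`).
`E χ = ∑_{k ≤ U} μ(k) χ(k) ∑_{w₀ < k l ≤ w₁} log l χ(l)`: by SMT (`f = log`) and the triangle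
inequality in `l²` over `χ ≠ 1`, `(∑ ‖E χ‖²)^{1/2} ≤ U q log X`.  `α` is
`lo Λ V * lo mob U`, which vanishes at `1` (`Λ 1 = 0`) and for `k > U V`, `|α k| ≤ log k ≤ log X`
(`U V ≤ X`).  `α'`, `β'` are `hi Λ V` and `hi mob U * zet`, restricted to `n ≤ X`. -/
def StVACX : Prop := ∀ (q : ℕ) [NeZero q] (X U V w₀ w₁ : ℕ), 3 ≤ X → 1 ≤ U → 1 ≤ V → V ≤ w₀ →
  U * V ≤ X → w₀ ≤ w₁ → w₁ ≤ X →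
  ∃ (α α' β' : ℕ → ℝ) (E : DirichletCharacter ℂ q → ℂ),
    (∀ n, |α n| ≤ 2 * Real.log X * (n.divisors.card : ℝ)) ∧ α 1 = 0 ∧
    (∀ n, U * V < n → α n = 0) ∧ Cf (2 * Real.log X) V α' ∧ Cf (2 * Real.log X) U β' ∧
    ∑ χ ∈ (univ : Finset (DirichletCharacter ℂ q)).filter (· ≠ 1), ‖E χ‖ ^ 2 ≤
      (2 * U * q * Real.log X) ^ 2 ∧
    ∀ χ : DirichletCharacter ℂ q, ‖Psi χ w₀ w₁‖ ≤
      ‖E χ‖ + ‖Bil χ α one1 X w₀ w₁‖ + ‖Bil χ α' β' X w₀ w₁‖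

/-- PWR: the power saving in the type one part.  PROOF: `U ≤ 2 q^{1/r}`, and
`τ(q) ≤ C q^{1/(2 r)}` (`Pool.Agent.Helper28.AE.hDIV`), so the left side is at most
`√q C q^{1/(2 r)} 2 U q ≤ 4 C q^{3/2 + 3/(2 r)}`; and `q^{3 r + 4} ≤ X^{2 r}` gives
`q^{3/2 + 3/(2 r)} = (q^{3 r + 4})^{(3 r + 3) / (2 r (3 r + 4))} ≤ X^{(3 r + 3) / (3 r + 4)}`. -/
def StPWR : Prop := ∀ r : ℕ, 1 ≤ r → ∃ C : ℝ, 0 < C ∧ ∀ q X U : ℕ, 1 ≤ q → 1 ≤ X → 1 ≤ U →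
  q ^ (3 * r + 4) ≤ X ^ (2 * r) → U ^ r ≤ 2 ^ r * q →
  √(q : ℝ) * (q.divisors.card : ℝ) * (U * q + q) ≤
    C * (X : ℝ) ^ (1 - 1 / (3 * (r : ℝ) + 4))

/-- T1P: the type one part.  PROOF: `L = log X`, `G = U q`; for large `X` PWR gives `G ≤ X` and
`√q τ(q) (G + q) ≤ C X^{1 - 1/(3 r + 4)}`, and `q ≤ X^{2/3}`.  BDG with `T = 2 L`, `Y = 2 X² L²`,
`δ = L^{-a}`, `a = 2 A + 80`, and `P = √Y T (G + q) (1 + L)² 2 √q τ(q) (1 + log q)` from PC1: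
`P ≤ C X^{2 - 1/(3 r + 4)} (2 L)^6` (and `|one1 n| ≤ T τ(n)` as `T ≥ 1`); the rest is
`√Y √(2 (δ X + 2 q) T⁴ X (1 + L)^63) ≤ X² L^{-A-1}` (`q ≤ δ X`). -/
def StT1P : Prop := ∀ r A : ℕ, 1 ≤ r → ∃ x₀ : ℕ, ∀ (q : ℕ) [NeZero q] (X U w₀ w₁ : ℕ)
  (α : ℕ → ℝ) (𝓖 : Finset (DirichletCharacter ℂ q)) (S : DirichletCharacter ℂ q → ℝ), x₀ ≤ X →
  q ^ (3 * r + 4) ≤ X ^ (2 * r) → 1 ≤ U → U ^ r ≤ 2 ^ r * q → w₀ ≤ w₁ → w₁ ≤ X →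
  (∀ n, |α n| ≤ 2 * Real.log X * (n.divisors.card : ℝ)) → α 1 = 0 →
  (∀ n, U * q < n → α n = 0) → (∀ χ ∈ 𝓖, χ ≠ 1 ∧ 0 ≤ S χ) →
  ∑ χ ∈ 𝓖, S χ ^ 2 ≤ 2 * (X : ℝ) ^ 2 * Real.log X ^ 2 →
  ∑ χ ∈ 𝓖, S χ * ‖Bil χ α one1 X w₀ w₁‖ ≤ (X : ℝ) ^ 2 / Real.log X ^ A

/-- T2P: the type two part.  PROOF: `L = log X`, `T = 2 L`, `Y = 2 X² L²`, `W = X / L^{A'}`, `V = q`.
By PC2 the `2 r`-th power of a piece is at most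
`C (2 L)^{4 r} X^{2 r} (1 + L)^c (2 X² L²)^{r-1} X² / L^{2 A'} ≤ (X² / L^{a₂})^{2 r}` for large `X` if
`2 A' ≥ 6 r + c + 2 r a₂ + 2`, so (`pow_le_pow_left` backwards) `P = X² / L^{a₂}` is allowed in BDG
with `δ = L^{-a}`, `a = 2 A + 80`, `a₂ = A + a + 3`; the rest of BDG is
`√Y √(2 (δ X + 2 q) T⁴ X (1 + L)^63) ≤ X² L^{-A-1}` (`q ≤ X^{2/3} ≤ δ X`).  `α 1 = 0` since
`1 ≤ q`. -/
def StT2P : Prop := ∀ r A : ℕ, 1 ≤ r → ∃ A' x₀ : ℕ, ∀ (q : ℕ) [NeZero q] (X U w₀ w₁ : ℕ)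
  (α β : ℕ → ℝ) (𝓖 : Finset (DirichletCharacter ℂ q)) (S : DirichletCharacter ℂ q → ℝ), x₀ ≤ X →
  q ^ (3 * r + 4) ≤ X ^ (2 * r) → 1 ≤ U → q ≤ U ^ r → w₀ ≤ w₁ → w₁ ≤ X →
  Cf (2 * Real.log X) q α → Cf (2 * Real.log X) U β →
  (∀ χ ∈ 𝓖, 0 ≤ S χ ∧ S χ ≤ X / Real.log X ^ A') →
  ∑ χ ∈ 𝓖, S χ ^ 2 ≤ 2 * (X : ℝ) ^ 2 * Real.log X ^ 2 →
  ∑ χ ∈ 𝓖, S χ * ‖Bil χ α β X w₀ w₁‖ ≤ (X : ℝ) ^ 2 / Real.log X ^ A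

/-- LMGX: the good characters, `q ≤ X^{2 r / (3 r + 4)}`.  PROOF: `V = q`, `U` the least natural
number with `q ≤ U^r` (so `1 ≤ U`, `U^r ≤ 2^r q`).  For large `X`: `q ≤ X^{2/3}`, so
`V ≤ X / 32 ≤ w₀`, and `U V ≤ X` (PWR).  `S χ = ‖Psi χ w₀ w₁‖`, `Y = 2 X² (log X)²` (PS2).  By VACX
`∑_𝓖 S² ≤ ∑ S ‖E‖ + ∑ S ‖Bil‖ + ∑ S ‖Bil'‖`; `∑ S ‖E‖ ≤ √Y 2 U q log X`, small by PWR, and T1P, T2P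
with `A + 2`. -/
def StLMGX : Prop := ∀ r A : ℕ, 1 ≤ r → ∃ A' x₀ : ℕ, ∀ (q : ℕ) [NeZero q] (X w₀ w₁ : ℕ)
  (𝓖 : Finset (DirichletCharacter ℂ q)), x₀ ≤ X → q ^ (3 * r + 4) ≤ X ^ (2 * r) →
  X ≤ 32 * w₀ → w₀ ≤ w₁ → w₁ ≤ X →
  (∀ χ ∈ 𝓖, χ ≠ 1 ∧ ‖Psi χ w₀ w₁‖ ≤ X / Real.log X ^ A') →
  ∑ χ ∈ 𝓖, ‖Psi χ w₀ w₁‖ ^ 2 ≤ (X : ℝ) ^ 2 / Real.log X ^ A

end Pool.Agent.Helper29.E3
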