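import Pool.Agent.Helper29.E3.St2

/-!
# Project E3, part 3: major arcs and assembly

The statements are those of project PC with `D ≤ M` replaced by `D ≤ M ^ 2` or
`D ^ (N + 1) ≤ M ^ (2 * N)`.
-/

set_option autoImplicit false

namespace Pool.Agent.Helper29.E3

open Finset ArithmeticFunction Classical
open Pool.Agent.Helper48.BK (ex th lz Vz Pz gs nd Apx AdN Sol thd)
open Pool.Agent.Helper49.PC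
open scoped ComplexConjugate

/-! ### major arcs -/

/-- MJAX: expansion of the sum over primes in characters.  PROOF: adapt `M_MJA`
(`q = D v ≤ D M = X`, `log X ≤ 3 L`). -/
def StMJAX : Prop := ∀ A p : ℕ, ∃ e x₀ : ℕ, ∀ (M D v S : ℕ) [NeZero (D * v)] (w₀ w₁ : ℕ) (h : ℤ)
  (η : ℝ), x₀ ≤ M → 1 ≤ D → D ≤ M ^ 2 → 1 ≤ v → v ≤ M → |η| * M ≤ Real.log M ^ p →
  w₀ ≤ w₁ → w₁ ≤ D * M → Real.log M ^ e ≤ S → S ≤ M →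
  l2 (range D) (fun j => Sj (cut th w₀ w₁) (D * M) D ((h : ℝ) / v + η) j -
    ∑ s ∈ range S, ex (tt w₀ w₁ S s * (η / D)) *
      ∑ χ : DirichletCharacter ℂ (D * v), Psi χ (tt w₀ w₁ S s) (tt w₀ w₁ S (s + 1)) *
        Gs χ (h + j * v)) ≤ (D : ℝ) * M / Real.log M ^ A

/-- MJBX: the principal character.  PROOF: adapt `M_MJB`. -/
def StMJBX : Prop := ∀ A p : ℕ, ∃ e₀ : ℕ, ∀ e : ℕ, e₀ ≤ e → ∃ x₀ : ℕ, ∀ (M D v S : ℕ)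
  [NeZero (D * v)] (w₀ w₁ : ℕ) (h : ℤ) (η : ℝ), x₀ ≤ M → 1 ≤ D → D ≤ M ^ 2 → 1 ≤ v →
  v ≤ M → |η| * M ≤ Real.log M ^ p → w₀ ≤ w₁ → w₁ ≤ D * M → Real.log M ^ e ≤ S →
  (S : ℝ) ≤ Real.log M ^ (e + 1) →
  l2 (range D) (fun j => ∑ s ∈ range S, ex (tt w₀ w₁ S s * (η / D)) *
      (Psi (1 : DirichletCharacter ℂ (D * v)) (tt w₀ w₁ S s) (tt w₀ w₁ S (s + 1)) *
        Gs (1 : DirichletCharacter ℂ (D * v)) (h + j * v)) -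
      c0 D w₀ w₁ η * Gs (1 : DirichletCharacter ℂ (D * v)) (h + j * v)) ≤
    (D : ℝ) * M / Real.log M ^ A

/-- MJCX: the nonprincipal characters.  PROOF: adapt `M_MJC`, LMGX (parameter `r`) in place of LMG
(`q = D v`, `X = D M`, `q ^ (3 r + 4) ≤ X ^ (2 r)`; this also gives `q ≤ X`). -/
def StMJCX : Prop := ∀ r A e : ℕ, 1 ≤ r → ∃ C : ℕ, ∀ B : ℕ, ∃ x₀ : ℕ, ∀ (M D v S : ℕ)
  [NeZero (D * v)] (w₀ w₁ : ℕ) (h : ℤ) (η : ℝ), x₀ ≤ M → 1 ≤ D → D ≤ M ^ 2 → 1 ≤ v →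
  (D * v) ^ (3 * r + 4) ≤ (D * M) ^ (2 * r) → 1 ≤ S →
  (S : ℝ) ≤ Real.log M ^ (e + 1) → D * M ≤ 32 * w₀ → w₀ ≤ w₁ → w₁ ≤ D * M →
  ∃ (𝓧 : Finset (DirichletCharacter ℂ (D * v))) (cf : DirichletCharacter ℂ (D * v) → ℂ),
    (1 : DirichletCharacter ℂ (D * v)) ∉ 𝓧 ∧ (𝓧.card : ℝ) ≤ Real.log M ^ C ∧
    (∀ χ ∈ 𝓧, Deep (Real.log M ^ B) χ ∧ ‖cf χ‖ ≤ D * M * Real.log M ^ 2) ∧
    l2 (range D) (fun j => ∑ s ∈ range S, ex (tt w₀ w₁ S s * (η / D)) *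
        ∑ χ ∈ (univ : Finset (DirichletCharacter ℂ (D * v))).filter (· ≠ 1),
          Psi χ (tt w₀ w₁ S s) (tt w₀ w₁ S (s + 1)) * Gs χ (h + j * v) -
        ∑ χ ∈ 𝓧, cf χ * Gs χ (h + j * v)) ≤ (D : ℝ) * M / Real.log M ^ A

/-- MJTX: the primes at the points `(h / v + η + j) / D`.  PROOF: adapt `M_MJT`. -/
def StMJTX : Prop := ∀ r A p : ℕ, 1 ≤ r → ∃ C : ℕ, ∀ B : ℕ, ∃ x₀ : ℕ, ∀ (M D v : ℕ)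
  [NeZero (D * v)] (w₀ w₁ : ℕ) (h : ℤ) (η : ℝ), x₀ ≤ M → 1 ≤ D → D ≤ M ^ 2 → 1 ≤ v →
  (D * v) ^ (3 * r + 4) ≤ (D * M) ^ (2 * r) →
  (v : ℝ) ≤ Real.log M ^ p → |η| * M ≤ Real.log M ^ p → D * M ≤ 32 * w₀ → w₀ ≤ w₁ →
  w₁ ≤ D * M →
  ∃ (𝓧 : Finset (DirichletCharacter ℂ (D * v))) (cf : DirichletCharacter ℂ (D * v) → ℂ),
    (1 : DirichletCharacter ℂ (D * v)) ∉ 𝓧 ∧ (𝓧.card : ℝ) ≤ Real.log M ^ C ∧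
    (∀ χ ∈ 𝓧, Deep (Real.log M ^ B) χ ∧ ‖cf χ‖ ≤ D * M * Real.log M ^ 2) ∧
    l2 (range D) (fun j => Sj (cut th w₀ w₁) (D * M) D ((h : ℝ) / v + η) j -
      (c0 D w₀ w₁ η * Gs (1 : DirichletCharacter ℂ (D * v)) (h + j * v) +
        ∑ χ ∈ 𝓧, cf χ * Gs χ (h + j * v))) ≤ (D : ℝ) * M / Real.log M ^ A

/-- MJZX: the model at the points `(h / v + η + j) / D`.  PROOF: adapt `M_MJZ` with AZ2X in place of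
AZ2: `(D v)⁴ ≤ (D M)³` for large `M`, as `D v⁴ ≤ M² L^{4 p} ≤ M³`; `log (D M) ≤ 3 L`. -/
def StMJZX : Prop := ∀ A p : ℕ, ∃ b : ℕ, ∀ B : ℕ, ∃ x₀ : ℕ, ∀ (M D v : ℕ) [NeZero (D * v)]
  (z w₀ w₁ : ℕ) (h : ℤ) (η : ℝ), x₀ ≤ M → 1 ≤ D → D ≤ M ^ 2 → 1 ≤ v →
  (v : ℝ) ≤ Real.log M ^ p → |η| * M ≤ Real.log M ^ p → w₀ ≤ w₁ → w₁ ≤ D * M →
  Real.log M ^ b ≤ z → (z : ℝ) ≤ Real.log M ^ B →
  l2 (range D) (fun j => Sj (cut (lz z) w₀ w₁) (D * M) D ((h : ℝ) / v + η) j -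
      c0 D w₀ w₁ η * Gs (1 : DirichletCharacter ℂ (D * v)) (h + j * v)) ≤
    (D : ℝ) * M / Real.log M ^ A

/-- MRX: the range of `q = D v` for `r = 4 N + 1`.  PROOF: the claim is
`D ^ (r + 4) v ^ (3 r + 4) ≤ M ^ (2 r)`.  Raise to the power `N + 1`:
`D ^ ((N + 1)(4 N + 5)) ≤ M ^ (2 N (4 N + 5)) = M ^ (8 N² + 10 N)`,
`M ^ (2 r (N + 1)) = M ^ (8 N² + 10 N + 2)`, and `v ^ ((12 N + 7)(N + 1)) ≤ M²` for large `M`.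
The second part: `D ^ (N + 1) ≤ M ^ (2 N) ≤ (M²) ^ (N + 1)`. -/
def StMRX : Prop := (∀ N p : ℕ, ∃ x₀ : ℕ, ∀ M D v : ℕ, x₀ ≤ M → 1 ≤ D →
  D ^ (N + 1) ≤ M ^ (2 * N) → (v : ℝ) ≤ Real.log M ^ p →
  (D * v) ^ (3 * (4 * N + 1) + 4) ≤ (D * M) ^ (2 * (4 * N + 1))) ∧
  ∀ N M D : ℕ, 1 ≤ M → D ^ (N + 1) ≤ M ^ (2 * N) → D ≤ M ^ 2

/-- MJRX: comparison on the major arcs.  PROOF: adapt `M_MJRE`: MJTX with `r = 4 N + 1` and MRX,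
MJZX; `log (D M) ≤ 3 L`, `a b c ≤ M³` (as `(a b c)² = D₁ D₂ D₃ ≤ M⁶`). -/
def StMJRX : Prop := ∀ N A p K : ℕ, ∃ b : ℕ, ∀ B : ℕ, ∃ x₀ : ℕ, ∀ (a b' c Z v z : ℕ) (h d : ℤ)
  (η : ℝ), x₀ ≤ Z → 1 ≤ a → 1 ≤ b' → 1 ≤ c → (EE a b' c : ℝ) ≤ Real.log (16 * Z) ^ K → 1 ≤ v →
  (b' * c) ^ (N + 1) ≤ (16 * Z) ^ (2 * N) → (a * c) ^ (N + 1) ≤ (16 * Z) ^ (2 * N) →
  (a * b') ^ (N + 1) ≤ (16 * Z) ^ (2 * N) →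
  (v : ℝ) ≤ Real.log (16 * Z) ^ p → |η| * (16 * Z) ≤ Real.log (16 * Z) ^ p →
  (Int.gcd d (a * b' * c : ℕ) : ℝ) ≤ Real.log (16 * Z) ^ K →
  Real.log (16 * Z) ^ b ≤ z → (z : ℝ) ≤ Real.log (16 * Z) ^ B →
  ‖WP th a b' c Z d ((h : ℝ) / v + η) - WP (lz z) a b' c Z d ((h : ℝ) / v + η)‖ ≤
    ((a * b' * c : ℕ) : ℝ) ^ 2 * (16 * Z) ^ 3 / Real.log (16 * Z) ^ A

/-! ### assembly -/

/-- MTTX: the main term.  PROOF: adapt `Pool.Agent.Helper48.PC.M_MTT` (`sol_MTT`): there the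
remainder of the fundamental lemma is `R = 4 z^{2 B'} (H / a + H / b + 1)` against
`N = H² / (900 a b c)`, and `H = a b c Z` gives
`R / N = 3600 z^{2 B'} (1 / (a Z) + 1 / (b Z) + 1 / (a b c Z²)) ≤ 10800 z^{2 B'} / Z`, so
`z ^ B ≤ Z` with a larger `B` suffices in place of `max(a,b,c)² z ^ B ≤ H`. -/
def StMTTX : Prop := ∃ c₀ : ℝ, 0 < c₀ ∧ ∃ B : ℕ, ∀ (a b c Z z : ℕ) (d : ℤ), 1 ≤ a → 1 ≤ b →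
  1 ≤ c → AdN a b c d → |d| ≤ 6 * (a * b * c * Z) → 2 ≤ z → z ^ B ≤ Z →
  c₀ * (a * b * c * Z ^ 2) ≤
    T3 (cut (lz z) (4 * (b * c) * Z) (5 * (b * c) * Z))
      (cut (lz z) (4 * (a * c) * Z) (5 * (a * c) * Z))
      (cut (lz z) (2 * (a * b) * Z) (16 * (a * b) * Z))
      (b * c * (16 * Z)) (a * c * (16 * Z)) (a * b * (16 * Z)) a b c d

/-- PMAX: the major arcs.  PROOF: adapt `M_PMAE`. -/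
def StPMAX : Prop := ∀ N p K : ℕ, ∃ b : ℕ, ∀ B : ℕ, ∃ x₀ : ℕ, ∀ (a b' c Z z : ℕ) (d : ℤ),
  x₀ ≤ Z → 1 ≤ a → 1 ≤ b' → 1 ≤ c → (EE a b' c : ℝ) ≤ Real.log (16 * Z) ^ K →
  (b' * c) ^ (N + 1) ≤ (16 * Z) ^ (2 * N) → (a * c) ^ (N + 1) ≤ (16 * Z) ^ (2 * N) →
  (a * b') ^ (N + 1) ≤ (16 * Z) ^ (2 * N) →
  (Int.gcd d (a * b' * c : ℕ) : ℝ) ≤ Real.log (16 * Z) ^ K →
  Real.log (16 * Z) ^ b ≤ z → (z : ℝ) ≤ Real.log (16 * Z) ^ B →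
  ‖1 / (((16 * Z) ^ 2 : ℕ) * (a * b' * c : ℕ) : ℂ) *
    ∑ k ∈ Maj p Z, (WP th a b' c Z d ((k : ℝ) / ((16 * Z) ^ 2 : ℕ)) -
      WP (lz z) a b' c Z d ((k : ℝ) / ((16 * Z) ^ 2 : ℕ)))‖ ≤
    (a * b' * c : ℕ) * (16 * Z) ^ 2 / Real.log (16 * Z)

/-- PMIX: the minor arcs.  PROOF: adapt `M_PMIE` with MITX and MIZX for the first window
(`D = b c`); `log (D M) ≤ 3 L` for the three windows. -/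
def StPMIX : Prop := ∀ K : ℕ, ∃ p : ℕ, ∀ N B : ℕ, ∃ x₀ : ℕ, ∀ (a b c Z z : ℕ) (d : ℤ), x₀ ≤ Z →
  1 ≤ a → 1 ≤ b → 1 ≤ c → (EE a b c : ℝ) ≤ Real.log (16 * Z) ^ K →
  (b * c) ^ (N + 1) ≤ (16 * Z) ^ (2 * N) → a * c ≤ (16 * Z) ^ 2 → a * b ≤ (16 * Z) ^ 2 →
  Real.log (16 * Z) ^ p ≤ z → (z : ℝ) ≤ Real.log (16 * Z) ^ B →
  ∀ f : ℕ → ℝ, (f = th ∨ f = lz z) →
  ‖1 / (((16 * Z) ^ 2 : ℕ) * (a * b * c : ℕ) : ℂ) *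
    ∑ k ∈ range ((16 * Z) ^ 2) \ Maj p Z, WP f a b c Z d ((k : ℝ) / ((16 * Z) ^ 2 : ℕ))‖ ≤
    (a * b * c : ℕ) * (16 * Z) ^ 2 / Real.log (16 * Z)

/-- POSX: solutions at height `H = a b c Z`.  PROOF: adapt `M_POSE`: `p` from PMIX for `K`, `b` from
PMAX for `N, p, K`, `b' = max b p`, `z = ⌈L ^ b'⌉`, `B = b' + 1`; `z ^ B₀ ≤ Z` for large `Z`; the
conditions `a c ≤ (16 Z)²`, `a b ≤ (16 Z)²` from MRX. -/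
def StPOSX : Prop := ∀ K N : ℕ, ∃ x₀ : ℕ, ∀ (a b c Z : ℕ) (d : ℤ), x₀ ≤ Z → 1 ≤ a → 1 ≤ b →
  1 ≤ c → AdN a b c d → (EE a b c : ℝ) ≤ Real.log (16 * Z) ^ K → |d| ≤ 6 * (a * b * c * Z) →
  (b * c) ^ (N + 1) ≤ (16 * Z) ^ (2 * N) → (a * c) ^ (N + 1) ≤ (16 * Z) ^ (2 * N) →
  (a * b) ^ (N + 1) ≤ (16 * Z) ^ (2 * N) →
  (Int.gcd d (a * b * c : ℕ) : ℝ) ≤ Real.log (16 * Z) ^ K →
  ∃ p q r : ℕ, p.Prime ∧ q.Prime ∧ r.Prime ∧ (a : ℤ) * p + b * q = c * r + d ∧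
    a * p ≤ 5 * (a * b * c * Z) ∧ b * q ≤ 5 * (a * b * c * Z) ∧ c * r ≤ 16 * (a * b * c * Z)

/-- NATX: choice of the height.  PROOF: let `μ = min a (min b c)`, `D = a b c / μ`, the largest of
`b c, a c, a b`.  `Z₁` the least integer with `|d| ≤ 6 a b c Z₁`, `Z₂ = ⌈D ^ (1/2 + 1/(2N))⌉`,
`Z = max Z₁ Z₂ ≥ 1`.  Then `D ^ (N + 1) ≤ Z₂ ^ (2 N) ≤ (16 Z) ^ (2 N)`.  The height
`x = max |d| (max a (max b c))` is at most `6 Z⁴`: `a, b, c ≤ D ≤ Z²`, `a b c ≤ D^{3/2} ≤ Z³`,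
`|d| ≤ 6 a b c Z`; so `Z` is large and `(log x)^K ≤ (5 log (16 Z))^K ≤ (log (16 Z))^{K+1}`: POSX with
`K + 1`.  The primes are at most `16 a b c Z / μ = 16 D Z`: if `Z = Z₁ ≤ |d| / (6 a b c) + 1` this is
`≤ (8/3) |d| / μ + 16 D`, and if `Z = Z₂ ≤ 2 D ^ (1/2 + 1/(2N))` it is
`≤ 32 D ^ (3/2 + 1/(2N))`. -/
def StNATX : Prop := ∀ K N : ℕ, 1 ≤ N → ∃ x₀ : ℕ, ∀ (a b c : ℕ) (d : ℤ), 1 ≤ a → 1 ≤ b → 1 ≤ c →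
  AdN a b c d → x₀ ≤ max d.natAbs (max a (max b c)) →
  (EE a b c : ℝ) ≤ Real.log (max d.natAbs (max a (max b c)) : ℕ) ^ K →
  (Int.gcd d (a * b * c : ℕ) : ℝ) ≤ Real.log (max d.natAbs (max a (max b c)) : ℕ) ^ K →
  ∃ p q r : ℕ, p.Prime ∧ q.Prime ∧ r.Prime ∧ (a : ℤ) * p + b * q = c * r + d ∧
    ((max p (max q r) : ℕ) : ℝ) ≤ 8 / 3 * |(d : ℝ)| / (min a (min b c) : ℕ) +
      32 * (((a * b * c : ℕ) : ℝ) / (min a (min b c) : ℕ)) ^ (3 / 2 + 1 / (2 * (N : ℝ)))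

/-- INTX: integer coefficients.  PROOF: adapt `M_INTE`. -/
def StINTX : Prop := ∀ K N : ℕ, 1 ≤ N → ∃ x₀ : ℕ, ∀ a b c d : ℤ,
  Pool.Agent.Helper48.BK.Admissible a b c d →
  (x₀ : ℤ) ≤ max |d| (max |a| (max |b| |c|)) →
  ((Int.gcd a b * Int.gcd a c * Int.gcd b c : ℕ) : ℝ) ≤
    Real.log (max |d| (max |a| (max |b| |c|)) : ℤ) ^ K →
  (Int.gcd d (a * b * c) : ℝ) ≤ Real.log (max |d| (max |a| (max |b| |c|)) : ℤ) ^ K →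
  ∃ p q r : ℕ, p.Prime ∧ q.Prime ∧ r.Prime ∧ a * p + b * q + c * r = d ∧
    ((max p (max q r) : ℕ) : ℝ) ≤ 8 / 3 * |(d : ℝ)| / (min |a| (min |b| |c|) : ℤ) +
      32 * (|((a * b * c : ℤ) : ℝ)| / (min |a| (min |b| |c|) : ℤ)) ^ (3 / 2 + 1 / (2 * (N : ℝ)))

/-- FINX: the final form of the bound.  PROOF: choose `N ≥ 1` with `1 / (2 N) < ε`, put
`k = min |a| (min |b| |c|) ≥ 1`, `D = |a b c| / k`, the product of the two larger coefficients, so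
`1 ≤ D ≤ m²` and `max (|a|, |b|, |c|) ≤ D`.  If `D ≥ D₀(ε, N)` then `32 D ^ (3/2 + 1/(2N)) ≤ D ^ (3/2 + ε)`.  If
`D < D₀`, then `|d|` is the height, `≥ x₁`, and `32 D₀² ≤ |d| / (3 D₀) ≤ |d| / (3 k)`.  The second
bound: `|d| / k ≤ |d|`, `D ^ (3/2 + ε) ≤ (m²) ^ (3/2 + ε) = m ^ (3 + 2 ε)`. -/
def StFINX : Prop := ∀ ε : ℝ, 0 < ε → ∃ N : ℕ, 1 ≤ N ∧ ∃ x₁ : ℕ, ∀ a b c d : ℤ, a ≠ 0 → b ≠ 0 →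
  c ≠ 0 → (x₁ : ℤ) ≤ max |d| (max |a| (max |b| |c|)) →
  8 / 3 * |(d : ℝ)| / (min |a| (min |b| |c|) : ℤ) +
      32 * (|((a * b * c : ℤ) : ℝ)| / (min |a| (min |b| |c|) : ℤ)) ^ (3 / 2 + 1 / (2 * (N : ℝ))) ≤
    min (3 * |(d : ℝ)| / (min |a| (min |b| |c|) : ℤ) +
        (|((a * b * c : ℤ) : ℝ)| / (min |a| (min |b| |c|) : ℤ)) ^ (3 / 2 + ε))
      (3 * |(d : ℝ)| + ((max 3 (max |a| (max |b| |c|)) : ℤ) : ℝ) ^ (3 + 2 * ε))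

end Pool.Agent.Helper29.E3
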