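import Pool.Agent.Helper45.E3.M_GNP
import Pool.Agent.Helper55.E3.M_GHP
import Pool.Agent.Helper10.E3.M_GQS
import Pool.Agent.Helper69.E3.M_GON
import Pool.Agent.Helper94.E3.M_PTQ
import Pool.Agent.Helper13.E3.M_SMQ
import Pool.Agent.Helper22.E3.M_TS1
import Pool.Agent.Helper16.E3.M_TCL
import Pool.Agent.Helper61.E3.M_MBL
import Pool.Agent.Helper47.E3.M_MILX
import Pool.Agent.Helper36.E3.M_MITX
import Pool.Agent.Helper86.E3.M_AZ2X
import Pool.Agent.Helper29.E3.M_MIZX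
import Pool.Agent.Helper78.E3.M_GBD
import Pool.Agent.Helper60.E3.M_PVC
import Pool.Agent.Helper29.E3.M_PWC
import Pool.Agent.Helper86.E3.M_MOM
import Pool.Agent.Helper71.E3.M_HLD
import Pool.Agent.Helper6.E3.M_BDG
import Pool.Agent.Helper34.E3.M_PC1
import Pool.Agent.Helper25.E3.M_PC2
import Pool.Agent.Helper27.E3.M_VACX
import Pool.Agent.Helper66.E3.M_PWR
import Pool.Agent.Helper9.E3.M_T1P
import Pool.Agent.Helper62.E3.M_T2P
import Pool.Agent.Helper33.E3.M_LMGX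
import Pool.Agent.Helper29.E3.M_MJAX
import Pool.Agent.Helper29.E3.M_MJBX
import Pool.Agent.Helper29.E3.M_MJCX
import Pool.Agent.Helper29.E3.M_MJTX
import Pool.Agent.Helper29.E3.M_MJZX
import Pool.Agent.Helper98.E3.M_MRX
import Pool.Agent.Helper29.E3.M_MJRX
import Pool.Agent.Helper40.E3.M_MTTX
import Pool.Agent.Helper29.E3.M_PMAX
import Pool.Agent.Helper80.E3.M_PMIX
import Pool.Agent.Helper32.E3.M_POSX
import Pool.Agent.Helper83.E3.M_NATX
import Pool.Agent.Helper29.E3.M_INTX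
import Pool.Agent.Helper43.E3.M_FINX
import Pool.Agent.Helper49.PC.Top

/-!
# Project E3: assembly
-/

set_option autoImplicit false

namespace Pool.Agent.Helper29.E3

open Pool.Agent.Helper48.BK
open Pool.Agent.Helper49.PC

theorem xGNP : StGNP := Pool.Agent.Helper45.E3.hGNP
theorem xGHP : StGHP := Pool.Agent.Helper55.E3.hGHP
theorem xGQS : StGQS := Pool.Agent.Helper10.E3.hGQS
theorem xGON : StGON := Pool.Agent.Helper69.E3.hGON hGeo2
theorem xPTQ : StPTQ := Pool.Agent.Helper94.E3.hPTQ xGNP xGHP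
theorem xSMQ : StSMQ := Pool.Agent.Helper13.E3.hSMQ
theorem xTS1 : StTS1 := Pool.Agent.Helper22.E3.hTS1 xGON xPTQ xSMQ xGQS hMEA
theorem xTCL : StTCL := Pool.Agent.Helper16.E3.hTCL tPV hGeo1
theorem xMBL : StMBL := Pool.Agent.Helper61.E3.hMBL tTU2
theorem xMILX : StMILX := Pool.Agent.Helper47.E3.hMILX tTU1 xMBL xTS1 xTCL
theorem xMITX : StMITX := Pool.Agent.Helper36.E3.hMITX tRED xMILX tPV
theorem xAZ2X : StAZ2X := Pool.Agent.Helper86.E3.hAZ2X hBrun hTail hVz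
theorem xMIZX : StMIZX := Pool.Agent.Helper29.E3.hMIZX tPV tTRV tNUZ hBrun hTail hVz tTI hGeo1
theorem xGBD : StGBD := Pool.Agent.Helper78.E3.hGBD hGUN tGPV
theorem xPVC : StPVC := Pool.Agent.Helper60.E3.hPVC hORT xGBD hGeo1
theorem xPWC : StPWC := Pool.Agent.Helper29.E3.hPWC
theorem xMOM : StMOM := Pool.Agent.Helper86.E3.hMOM xPWC tMSQ hDVK
theorem xHLD : StHLD := Pool.Agent.Helper71.E3.hHLD
theorem xBDG : StBDG := Pool.Agent.Helper6.E3.hBDG tLEF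
theorem xPC1 : StPC1 := Pool.Agent.Helper34.E3.hPC1 tMSQ hDVK xPVC
theorem xPC2 : StPC2 := Pool.Agent.Helper25.E3.hPC2 tMSQ hDVK xMOM xHLD
theorem xVACX : StVACX := Pool.Agent.Helper27.E3.hVACX tSMT
theorem xPWR : StPWR := Pool.Agent.Helper66.E3.hPWR
theorem xT1P : StT1P := Pool.Agent.Helper9.E3.hT1P xBDG xPC1 xPWR
theorem xT2P : StT2P := Pool.Agent.Helper62.E3.hT2P xBDG xPC2
theorem xLMGX : StLMGX := Pool.Agent.Helper33.E3.hLMGX xVACX xT1P xT2P tPS2 xPWR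
theorem xMJAX : StMJAX := Pool.Agent.Helper29.E3.hMJAX tRED tSLO hGEX
theorem xMJBX : StMJBX := Pool.Agent.Helper29.E3.hMJBX tPNU hSL0 tGPV hPHI
theorem xMJCX : StMJCX := Pool.Agent.Helper29.E3.hMJCX xLMGX tPS2 tSWC tGPV hPHI
theorem xMJTX : StMJTX := Pool.Agent.Helper29.E3.hMJTX xMJAX xMJBX xMJCX
theorem xMJZX : StMJZX := Pool.Agent.Helper29.E3.hMJZX tTRV tNUZ xAZ2X tPVI
theorem xMRX : StMRX := Pool.Agent.Helper98.E3.hMRX
theorem xMJRX : StMJRX := Pool.Agent.Helper29.E3.hMJRX tTRV xMJTX xMJZX tCMPE tCHSE hGUN hSJP tLZB xMRX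
theorem xMTTX : StMTTX := Pool.Agent.Helper40.E3.hMTTX tCnt7 hLoc tC30 hEP
theorem xPMAX : StPMAX := Pool.Agent.Helper29.E3.hPMAX xMJRX hMEA
theorem xPMIX : StPMIX := Pool.Agent.Helper80.E3.hPMIX tMNRE xMITX xMIZX hMEA tLZB xMRX
theorem xPOSX : StPOSX := Pool.Agent.Helper32.E3.hPOSX tCIR xPMAX xPMIX xMTTX xMRX
theorem xNATX : StNATX := Pool.Agent.Helper83.E3.hNATX xPOSX
theorem xINTX : StINTX := Pool.Agent.Helper29.E3.hINTX xNATX
theorem xFINX : StFINX := Pool.Agent.Helper43.E3.hFINX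

end Pool.Agent.Helper29.E3
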